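import Pool.Agent.H813R3.Voj.Cnt2

set_option autoImplicit false

namespace Pool.Agent.H813R3.Voj

open Finset

/-- the size of the evaluation functional -/
def lam (r : ℕ) (P : ℤ × ℤ) : ℕ :=
  ∑ j : Fin (r + 1), P.1.natAbs ^ (j : ℕ) * P.2.natAbs ^ (j.rev : ℕ)

lemma abs_ev_le {r : ℕ} (a : Fin (r + 1) → ℤ) (P : ℤ × ℤ) (H : ℕ) (ha : ∀ i, |a i| ≤ H) :
    |ev a P| ≤ ((lam r P * H : ℕ) : ℤ) := by
  unfold ev lam
  refine (Finset.abs_sum_le_sum_abs _ _).trans ?_
  push_cast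
  rw [Finset.sum_mul]
  refine Finset.sum_le_sum fun j _ => ?_
  rw [abs_mul, abs_mul, abs_pow, abs_pow]
  refine mul_le_mul_of_nonneg_left (ha j) (by positivity)

/-- auxiliary points -/
lemma exists_aux {q : ℕ} (P : Fin q → ℤ × ℤ) (hP0 : ∀ j, P j ≠ 0) :
    ∃ t0 : ℕ, ∀ n : ℕ, t0 ≤ n → ∀ j, (P j).1 * (n : ℤ) - 1 * (P j).2 ≠ 0 := by
  refine ⟨∑ j, (P j).2.natAbs + 1, fun n hn j h => ?_⟩
  have h1 : (P j).2.natAbs ≤ ∑ j, (P j).2.natAbs :=
    Finset.single_le_sum (f := fun j => (P j).2.natAbs) (fun _ _ => Nat.zero_le _)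
      (Finset.mem_univ j)
  have h2 : (P j).2 = (P j).1 * n := by linarith
  by_cases h3 : (P j).1 = 0
  · rw [h3, zero_mul] at h2
    exact hP0 j (Prod.ext h3 h2)
  · have h4 : (P j).2.natAbs = (P j).1.natAbs * n := by
      rw [h2, Int.natAbs_mul, Int.natAbs_natCast]
    have h5 : 1 ≤ (P j).1.natAbs := Int.natAbs_pos.mpr h3
    have h6 : n ≤ (P j).1.natAbs * n := Nat.le_mul_of_pos_left n h5
    omega

theorem count_forms (r q : ℕ) (hq : 1 ≤ q) (P : Fin q → ℤ × ℤ) (hP0 : ∀ j, P j ≠ 0)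
    (hP : ∀ i j, i ≠ j → (P i).1 * (P j).2 - (P j).1 * (P i).2 ≠ 0) (S : Finset ℕ)
    (k : ℕ) (hkq : k ≤ q) (hkr : k ≤ r + 1) {δ : ℝ} (hδ : 0 < δ) :
    ∃ C : ℝ, 0 < C ∧ ∀ H : ℕ, 1 ≤ H → ∀ Z : ℝ, 1 ≤ Z → ∀ E : Finset (Fin (r + 1) → ℤ),
      (∀ a ∈ E, (∀ i, |a i| ≤ H) ∧ (∀ j, ev a (P j) ≠ 0) ∧
        ∏ j, (rho S (ev a (P j)) : ℝ) ≤ Z) →
      (E.card : ℝ) ≤ C * Z ^ ((k : ℝ) / q) * (H : ℝ) ^ (((r + 1 - k : ℕ) : ℝ) + δ) := by
  classical
  obtain ⟨t0, ht0⟩ := exists_aux P hP0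
  have hq0 : (0 : ℝ) < q := by exact_mod_cast hq
  -- the points attached to a subset
  set Q : (J : Finset (Fin q)) → ({j // j ∈ J} ⊕ Fin (r + 1 - k)) → ℤ × ℤ :=
    fun J => Sum.elim (fun j => P j.1) (fun i => (1, ((t0 + (i : ℕ) : ℕ) : ℤ))) with hQ
  have hQdet : ∀ J : Finset (Fin q), ∀ i j, i ≠ j →
      (Q J i).1 * (Q J j).2 - (Q J j).1 * (Q J i).2 ≠ 0 := by
    intro J i j hij
    rcases i with i | i <;> rcases j with j | j
    · simp only [hQ, Sum.elim_inl]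
      refine hP _ _ fun h => hij ?_
      rw [Subtype.ext h]
    · simp only [hQ, Sum.elim_inl, Sum.elim_inr]
      exact ht0 _ (Nat.le_add_right _ _) _
    · simp only [hQ, Sum.elim_inl, Sum.elim_inr]
      intro h
      exact ht0 (t0 + (i : ℕ)) (Nat.le_add_right _ _) j.1 (by linarith)
    · simp only [hQ, Sum.elim_inr]
      intro h
      apply hij
      congr 1
      apply Fin.ext
      push_cast at h
      omega
  choose! C hC hCN using fun J : Finset (Fin q) =>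
    count_sum S {j // j ∈ J} (Fin (r + 1 - k)) (δ := δ) hδ
  set L : Finset (Fin q) → ℕ := fun J => ∑ i, lam r (Q J i) + 1 with hL
  have hL1 : ∀ J, (1 : ℝ) ≤ L J := fun J => by
    simp only [hL]; push_cast
    have : (0 : ℝ) ≤ ∑ i, (lam r (Q J i) : ℝ) := Finset.sum_nonneg fun _ _ => Nat.cast_nonneg _
    linarith
  set e : ℝ := ((r + 1 - k : ℕ) : ℝ) + δ with he
  refine ⟨∑ J ∈ Finset.univ.powersetCard k, C J * (L J : ℝ) ^ e + 1, ?_,
    fun H hH Z hZ E hE => ?_⟩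
  · have : 0 ≤ ∑ J ∈ (Finset.univ : Finset (Fin q)).powersetCard k, C J * (L J : ℝ) ^ e :=
      Finset.sum_nonneg fun J _ => mul_nonneg (hC J).le (by positivity)
    linarith
  set W : ℝ := Z ^ ((k : ℝ) / q) with hW
  have hW0 : 0 < W := Real.rpow_pos_of_pos (by linarith) _
  -- the covering
  have hcov : ∀ a ∈ E, ∃ J ∈ (Finset.univ : Finset (Fin q)).powersetCard k,
      ∏ j : {j // j ∈ J}, (rho S (ev a (P j.1)) : ℝ) ≤ W := by
    intro a ha
    obtain ⟨_, _, h3⟩ := hE a ha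
    obtain ⟨J, hJ, hJs⟩ := exists_small (fun j => Real.log (rho S (ev a (P j)))) k hkq
    refine ⟨J, Finset.mem_powersetCard.mpr ⟨Finset.subset_univ _, hJ⟩, ?_⟩
    have hpos : ∀ j, (0 : ℝ) < rho S (ev a (P j)) := fun j => by exact_mod_cast rho_pos S _
    rw [Finset.prod_coe_sort J (fun j => (rho S (ev a (P j)) : ℝ))]
    have h4 : Real.log (∏ j ∈ J, (rho S (ev a (P j)) : ℝ)) ≤ Real.log W := by
      rw [Real.log_prod (fun j _ => (hpos j).ne'), hW, Real.log_rpow (by linarith)]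
      have h5 : ∑ j, Real.log (rho S (ev a (P j))) ≤ Real.log Z := by
        rw [← Real.log_prod (fun j _ => (hpos j).ne')]
        exact Real.log_le_log (Finset.prod_pos fun j _ => hpos j) h3
      rw [div_mul_eq_mul_div, le_div_iff₀ hq0]
      have h6 : (k : ℝ) * ∑ j, Real.log (rho S (ev a (P j))) ≤ k * Real.log Z :=
        mul_le_mul_of_nonneg_left h5 (Nat.cast_nonneg _)
      linarith
    exact (Real.log_le_log_iff (Finset.prod_pos fun j _ => hpos j) hW0).mp h4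
  -- the pieces
  have hpiece : ∀ J ∈ (Finset.univ : Finset (Fin q)).powersetCard k,
      ((E.filter fun a => ∏ j : {j // j ∈ J}, (rho S (ev a (P j.1)) : ℝ) ≤ W).card : ℝ) ≤
        C J * (L J : ℝ) ^ e * (W * (H : ℝ) ^ e) := by
    intro J hJ
    rw [Finset.mem_powersetCard] at hJ
    set F := E.filter fun a => ∏ j : {j // j ∈ J}, (rho S (ev a (P j.1)) : ℝ) ≤ W with hF
    set Φ : (Fin (r + 1) → ℤ) → ({j // j ∈ J} ⊕ Fin (r + 1 - k)) → ℤ :=
      fun a i => ev a (Q J i) with hΦ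
    have hcard : Fintype.card ({j // j ∈ J} ⊕ Fin (r + 1 - k)) = r + 1 := by
      rw [Fintype.card_sum, Fintype.card_coe, Fintype.card_fin, hJ.2]
      omega
    have hinj : Function.Injective Φ := by
      intro a b hab
      rw [← sub_eq_zero]
      refine ev_inj hcard (Q J) (hQdet J) _ fun i => ?_
      rw [ev_sub, sub_eq_zero]
      exact congrFun hab i
    have h1 := hCN J (L J * H) (Nat.mul_pos (Nat.succ_pos _) hH) W hW0.le (F.image Φ) ?_
    · rw [Finset.card_image_of_injective _ hinj, Fintype.card_fin] at h1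
      refine h1.trans (le_of_eq ?_)
      push_cast
      rw [Real.mul_rpow (by linarith [hL1 J]) (by positivity)]
      simp only [he]
      ring
    · intro m hm
      obtain ⟨a, ha, rfl⟩ := Finset.mem_image.mp hm
      rw [hF, Finset.mem_filter] at ha
      obtain ⟨h2, h3, _⟩ := hE a ha.1
      refine ⟨fun i => ?_, fun j => ?_, ?_⟩
      · refine (abs_ev_le a (Q J i) H h2).trans ?_
        have h4 : lam r (Q J i) ≤ L J := by
          have := Finset.single_le_sum (f := fun i => lam r (Q J i)) (fun _ _ => Nat.zero_le _)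
            (Finset.mem_univ i)
          simp only [hL]

          omega
        exact_mod_cast Nat.mul_le_mul_right H h4
      · exact h3 j.1
      · exact ha.2
  have h7 : (E.card : ℝ) ≤ ∑ J ∈ (Finset.univ : Finset (Fin q)).powersetCard k,
      ((E.filter fun a => ∏ j : {j // j ∈ J}, (rho S (ev a (P j.1)) : ℝ) ≤ W).card : ℝ) := by
    have h8 : E ⊆ ((Finset.univ : Finset (Fin q)).powersetCard k).biUnion fun J =>
        E.filter fun a => ∏ j : {j // j ∈ J}, (rho S (ev a (P j.1)) : ℝ) ≤ W := by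
      intro a ha
      obtain ⟨J, hJ, hJW⟩ := hcov a ha
      rw [Finset.mem_biUnion]
      exact ⟨J, hJ, Finset.mem_filter.mpr ⟨ha, hJW⟩⟩
    exact_mod_cast (Finset.card_le_card h8).trans Finset.card_biUnion_le
  refine h7.trans ((Finset.sum_le_sum hpiece).trans ?_)
  rw [← Finset.sum_mul]
  have h9 : 0 ≤ W * (H : ℝ) ^ e := by positivity
  nlinarith

end Pool.Agent.H813R3.Voj
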