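import Pool.Agent.H813R3.Voj.Rad

set_option autoImplicit false

namespace Pool.Agent.H813R3.Voj

open Finset

lemma rho_neg (S : Finset ℕ) (n : ℤ) : rho S (-n) = rho S n := by
  unfold rho; rw [Int.natAbs_neg]

lemma sum_symm_le (S : Finset ℕ) (N : ℕ) :
    ∑ n ∈ (Finset.Icc (-(N : ℤ)) N).erase 0, (1 : ℝ) / rho S n ≤
      2 * ∑ n ∈ Finset.Icc 1 N, (1 : ℝ) / rho S (n : ℤ) := by
  classical
  have hsub : (Finset.Icc (-(N : ℤ)) N).erase 0 ⊆
      (Finset.Icc 1 N).image (fun n : ℕ => (n : ℤ)) ∪ (Finset.Icc 1 N).image (fun n : ℕ => -(n : ℤ)) := by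
    intro x hx
    rw [Finset.mem_erase, Finset.mem_Icc] at hx
    rw [Finset.mem_union, Finset.mem_image, Finset.mem_image]
    rcases lt_or_gt_of_ne hx.1 with h | h
    · right
      refine ⟨x.natAbs, Finset.mem_Icc.mpr ⟨by omega, by omega⟩, by omega⟩
    · left
      refine ⟨x.natAbs, Finset.mem_Icc.mpr ⟨by omega, by omega⟩, by omega⟩
  have hnn : ∀ x : ℤ, 0 ≤ (1 : ℝ) / rho S x := fun x => by positivity
  refine (Finset.sum_le_sum_of_subset_of_nonneg hsub fun x _ _ => hnn x).trans ?_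
  have h1 := Finset.sum_union_inter (s₁ := (Finset.Icc 1 N).image (fun n : ℕ => (n : ℤ)))
    (s₂ := (Finset.Icc 1 N).image (fun n : ℕ => -(n : ℤ))) (f := fun x => (1 : ℝ) / rho S x)
  have h2 : 0 ≤ ∑ x ∈ (Finset.Icc 1 N).image (fun n : ℕ => (n : ℤ)) ∩
    (Finset.Icc 1 N).image (fun n : ℕ => -(n : ℤ)), (1 : ℝ) / rho S x :=
    Finset.sum_nonneg fun x _ => hnn x
  have h3 : ∑ x ∈ (Finset.Icc 1 N).image (fun n : ℕ => (n : ℤ)), (1 : ℝ) / rho S x =
      ∑ n ∈ Finset.Icc 1 N, (1 : ℝ) / rho S (n : ℤ) :=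
    Finset.sum_image fun a _ b _ h => by exact_mod_cast h
  have h4 : ∑ x ∈ (Finset.Icc 1 N).image (fun n : ℕ => -(n : ℤ)), (1 : ℝ) / rho S x =
      ∑ n ∈ Finset.Icc 1 N, (1 : ℝ) / rho S (n : ℤ) := by
    rw [Finset.sum_image fun a _ b _ h => by simpa using h]
    simp only [rho_neg]
  linarith

/-- the number of nonzero integer vectors with a small product of radicals -/
theorem count_rho (S : Finset ℕ) (ι : Type) [Fintype ι] [DecidableEq ι] {δ : ℝ} (hδ : 0 < δ) :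
    ∃ C : ℝ, 0 < C ∧ ∀ N : ℕ, 1 ≤ N → ∀ W : ℝ, 0 ≤ W → ∀ E : Finset (ι → ℤ),
      (∀ m ∈ E, (∀ j, m j ≠ 0 ∧ |m j| ≤ N) ∧ ∏ j, (rho S (m j) : ℝ) ≤ W) →
      (E.card : ℝ) ≤ C * W * (N : ℝ) ^ δ := by
  have hδ' : 0 < δ / (Fintype.card ι + 1) := by positivity
  obtain ⟨C, hC, hCN⟩ := sum_inv_rho S hδ'
  refine ⟨(2 * C) ^ Fintype.card ι, by positivity, fun N hN W hW E hE => ?_⟩
  set B : Finset ℤ := (Finset.Icc (-(N : ℤ)) N).erase 0 with hB
  have hN1 : (1 : ℝ) ≤ N := by exact_mod_cast hN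
  have hmem : ∀ m ∈ E, m ∈ Fintype.piFinset (fun _ : ι => B) := by
    intro m hm
    rw [Fintype.mem_piFinset]
    intro j
    have h4 := (hE m hm).1 j
    rw [hB, Finset.mem_erase, Finset.mem_Icc]
    exact ⟨h4.1, abs_le.mp h4.2⟩
  have hone : ∀ m ∈ E, (1 : ℝ) ≤ W * ∏ j, ((1 : ℝ) / rho S (m j)) := by
    intro m hm
    have h2 := (hE m hm).2
    have h3 : (0 : ℝ) < ∏ j, (rho S (m j) : ℝ) :=
      Finset.prod_pos fun j _ => by exact_mod_cast rho_pos S _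
    rw [Finset.prod_div_distrib, Finset.prod_const_one, mul_one_div, le_div_iff₀ h3, one_mul]
    exact h2
  have h1 : (E.card : ℝ) ≤ ∑ m ∈ Fintype.piFinset (fun _ : ι => B),
      W * ∏ j, ((1 : ℝ) / rho S (m j)) := by
    have h5 : (E.card : ℝ) = ∑ m ∈ E, (1 : ℝ) := by simp
    rw [h5]
    refine (Finset.sum_le_sum hone).trans ?_
    refine Finset.sum_le_sum_of_subset_of_nonneg (fun m hm => hmem m hm) fun m _ _ => ?_
    exact mul_nonneg hW (Finset.prod_nonneg fun j _ => by positivity)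
  have h6 : ∑ m ∈ Fintype.piFinset (fun _ : ι => B), W * ∏ j, ((1 : ℝ) / rho S (m j)) =
      W * (∑ n ∈ B, (1 : ℝ) / rho S n) ^ Fintype.card ι := by
    rw [← Finset.mul_sum]
    congr 1
    have h7 := Finset.prod_univ_sum (fun _ : ι => B) (fun (_ : ι) (n : ℤ) => (1 : ℝ) / rho S n)
    rw [← h7, Finset.prod_const, Finset.card_univ]
  rw [h6] at h1
  refine h1.trans ?_
  have h8 : (∑ n ∈ B, (1 : ℝ) / rho S n) ^ Fintype.card ι ≤
      (2 * C) ^ Fintype.card ι * (N : ℝ) ^ δ := by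
    have h9 : ∑ n ∈ B, (1 : ℝ) / rho S n ≤ 2 * C * (N : ℝ) ^ (δ / (Fintype.card ι + 1)) := by
      refine (sum_symm_le S N).trans ?_
      have := hCN N hN
      linarith
    have h10 : (0 : ℝ) ≤ ∑ n ∈ B, (1 : ℝ) / rho S n := Finset.sum_nonneg fun n _ => by positivity
    refine (pow_le_pow_left₀ h10 h9 _).trans ?_
    rw [mul_pow]
    refine mul_le_mul_of_nonneg_left ?_ (by positivity)
    rw [← Real.rpow_natCast, ← Real.rpow_mul (by positivity)]
    refine Real.rpow_le_rpow_of_exponent_le hN1 ?_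
    rw [div_mul_eq_mul_div, div_le_iff₀ (by positivity)]
    nlinarith
  calc W * (∑ n ∈ B, (1 : ℝ) / rho S n) ^ Fintype.card ι
      ≤ W * ((2 * C) ^ Fintype.card ι * (N : ℝ) ^ δ) := mul_le_mul_of_nonneg_left h8 hW
    _ = _ := by ring

end Pool.Agent.H813R3.Voj
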