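import Pool.Agent.H813R3.Voj.Cnt

set_option autoImplicit false

namespace Pool.Agent.H813R3.Voj

open Finset

theorem count_sum (S : Finset ℕ) (A B : Type) [Fintype A] [Fintype B] [DecidableEq A]
    [DecidableEq B] {δ : ℝ} (hδ : 0 < δ) :
    ∃ C : ℝ, 0 < C ∧ ∀ N : ℕ, 1 ≤ N → ∀ W : ℝ, 0 ≤ W → ∀ E : Finset (A ⊕ B → ℤ),
      (∀ m ∈ E, (∀ j, |m j| ≤ N) ∧ (∀ j, m (Sum.inl j) ≠ 0) ∧
        ∏ j, (rho S (m (Sum.inl j)) : ℝ) ≤ W) →
      (E.card : ℝ) ≤ C * W * (N : ℝ) ^ ((Fintype.card B : ℝ) + δ) := by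
  have hδ' : 0 < δ / (Fintype.card A + 1) := by positivity
  obtain ⟨C, hC, hCN⟩ := sum_inv_rho S hδ'
  refine ⟨(2 * C) ^ Fintype.card A * 3 ^ Fintype.card B, by positivity,
    fun N hN W hW E hE => ?_⟩
  set T : Finset ℤ := Finset.Icc (-(N : ℤ)) N with hT
  have hN1 : (1 : ℝ) ≤ N := by exact_mod_cast hN
  set w : A ⊕ B → ℤ → ℝ := fun i n => Sum.elim (fun _ => if n = 0 then 0 else (1 : ℝ) / rho S n)
    (fun _ => 1) i with hw
  have hwnn : ∀ i n, 0 ≤ w i n := by
    intro i n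
    rcases i with i | i
    · simp only [hw, Sum.elim_inl]
      split_ifs
      · exact le_rfl
      · positivity
    · simp only [hw, Sum.elim_inr]; norm_num
  have hmem : ∀ m ∈ E, m ∈ Fintype.piFinset (fun _ : A ⊕ B => T) := by
    intro m hm
    rw [Fintype.mem_piFinset]
    intro j
    rw [hT, Finset.mem_Icc]
    exact abs_le.mp ((hE m hm).1 j)
  have hone : ∀ m ∈ E, (1 : ℝ) ≤ W * ∏ j, w j (m j) := by
    intro m hm
    have h2 := (hE m hm).2.2
    have h0 := (hE m hm).2.1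
    have h3 : (0 : ℝ) < ∏ j, (rho S (m (Sum.inl j)) : ℝ) :=
      Finset.prod_pos fun j _ => by exact_mod_cast rho_pos S _
    rw [Fintype.prod_sum_type]
    simp only [hw, Sum.elim_inl, Sum.elim_inr, h0, if_false, Finset.prod_const_one, mul_one]
    rw [Finset.prod_div_distrib, Finset.prod_const_one, mul_one_div, le_div_iff₀ h3, one_mul]
    exact h2
  have h1 : (E.card : ℝ) ≤ ∑ m ∈ Fintype.piFinset (fun _ : A ⊕ B => T),
      W * ∏ j, w j (m j) := by
    have h5 : (E.card : ℝ) = ∑ m ∈ E, (1 : ℝ) := by simp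
    rw [h5]
    refine (Finset.sum_le_sum hone).trans ?_
    refine Finset.sum_le_sum_of_subset_of_nonneg (fun m hm => hmem m hm) fun m _ _ => ?_
    exact mul_nonneg hW (Finset.prod_nonneg fun j _ => hwnn _ _)
  have hsum : ∑ n ∈ T, (if n = 0 then 0 else (1 : ℝ) / rho S n) =
      ∑ n ∈ T.erase 0, (1 : ℝ) / rho S n := by
    rw [← Finset.sum_erase T (a := 0) (by simp)]
    refine Finset.sum_congr rfl fun n hn => ?_
    rw [if_neg (Finset.ne_of_mem_erase hn)]
  have h6 : ∑ m ∈ Fintype.piFinset (fun _ : A ⊕ B => T), W * ∏ j, w j (m j) =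
      W * ((∑ n ∈ T.erase 0, (1 : ℝ) / rho S n) ^ Fintype.card A *
        (2 * (N : ℝ) + 1) ^ Fintype.card B) := by
    rw [← Finset.mul_sum]
    congr 1
    have h7 := Finset.prod_univ_sum (fun _ : A ⊕ B => T) w
    rw [← h7, Fintype.prod_sum_type]
    simp only [hw, Sum.elim_inl, Sum.elim_inr, hsum, Finset.prod_const, Finset.card_univ]
    congr 2
    rw [Finset.sum_const, hT, Int.card_Icc]
    simp only [nsmul_eq_mul, mul_one]
    rw [show ((N : ℤ) + 1 - -(N : ℤ)).toNat = 2 * N + 1 by omega]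
    push_cast
    ring
  rw [h6] at h1
  refine h1.trans ?_
  have h8 : (∑ n ∈ T.erase 0, (1 : ℝ) / rho S n) ^ Fintype.card A ≤
      (2 * C) ^ Fintype.card A * (N : ℝ) ^ δ := by
    have h9 : ∑ n ∈ T.erase 0, (1 : ℝ) / rho S n ≤ 2 * C * (N : ℝ) ^ (δ / (Fintype.card A + 1)) := by
      refine (sum_symm_le S N).trans ?_
      have := hCN N hN
      linarith
    have h10 : (0 : ℝ) ≤ ∑ n ∈ T.erase 0, (1 : ℝ) / rho S n :=
      Finset.sum_nonneg fun n _ => by positivity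
    refine (pow_le_pow_left₀ h10 h9 _).trans ?_
    rw [mul_pow]
    refine mul_le_mul_of_nonneg_left ?_ (by positivity)
    rw [← Real.rpow_natCast, ← Real.rpow_mul (by positivity)]
    refine Real.rpow_le_rpow_of_exponent_le hN1 ?_
    rw [div_mul_eq_mul_div, div_le_iff₀ (by positivity)]
    nlinarith
  have h11 : (2 * (N : ℝ) + 1) ^ Fintype.card B ≤
      3 ^ Fintype.card B * (N : ℝ) ^ (Fintype.card B : ℝ) := by
    rw [Real.rpow_natCast, ← mul_pow]
    exact pow_le_pow_left₀ (by positivity) (by linarith) _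
  have h12 : (N : ℝ) ^ ((Fintype.card B : ℝ) + δ) =
      (N : ℝ) ^ (Fintype.card B : ℝ) * (N : ℝ) ^ δ := Real.rpow_add (by linarith) _ _
  rw [h12]
  calc W * ((∑ n ∈ T.erase 0, (1 : ℝ) / rho S n) ^ Fintype.card A *
        (2 * (N : ℝ) + 1) ^ Fintype.card B)
      ≤ W * (((2 * C) ^ Fintype.card A * (N : ℝ) ^ δ) *
        (3 ^ Fintype.card B * (N : ℝ) ^ (Fintype.card B : ℝ))) := by
        refine mul_le_mul_of_nonneg_left (mul_le_mul h8 h11 (by positivity) (by positivity)) hW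
    _ = _ := by ring

/-- the value of the binary form `∑ a_j X ^ j Y ^ (r - j)` at a point -/
def ev {r : ℕ} (a : Fin (r + 1) → ℤ) (P : ℤ × ℤ) : ℤ :=
  ∑ j : Fin (r + 1), P.1 ^ (j : ℕ) * P.2 ^ (j.rev : ℕ) * a j

lemma ev_sub {r : ℕ} (a b : Fin (r + 1) → ℤ) (P : ℤ × ℤ) : ev (a - b) P = ev a P - ev b P := by
  unfold ev
  rw [← Finset.sum_sub_distrib]
  exact Finset.sum_congr rfl fun j _ => by rw [Pi.sub_apply]; ring

/-- a binary form vanishing at `r + 1` points is zero -/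
theorem ev_inj {r : ℕ} {ι : Type} [Fintype ι] (hι : Fintype.card ι = r + 1) (Q : ι → ℤ × ℤ)
    (hQ : ∀ i j, i ≠ j → (Q i).1 * (Q j).2 - (Q j).1 * (Q i).2 ≠ 0)
    (a : Fin (r + 1) → ℤ) (ha : ∀ i, ev a (Q i) = 0) : a = 0 := by
  classical
  obtain e : Fin (r + 1) ≃ ι := (Fintype.equivFinOfCardEq hι).symm
  have hdet : (Matrix.projVandermonde (fun i => (Q (e i)).1) (fun i => (Q (e i)).2)).det ≠ 0 := by
    rw [Matrix.det_projVandermonde]
    refine Finset.prod_ne_zero_iff.mpr fun i _ => Finset.prod_ne_zero_iff.mpr fun j hj => ?_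
    have hij : e j ≠ e i := by
      intro h
      have := e.injective h
      rw [Finset.mem_Ioi] at hj
      exact absurd this hj.ne'
    exact hQ _ _ hij
  refine Matrix.eq_zero_of_mulVec_eq_zero hdet ?_
  funext i
  have := ha (e i)
  unfold ev at this
  rw [Matrix.mulVec, dotProduct]
  simpa [Matrix.projVandermonde_apply] using this

/-- small subsets of a family of nonnegative numbers -/
lemma exists_small {q : ℕ} (f : Fin q → ℝ) (k : ℕ) (hk : k ≤ q) :
    ∃ J : Finset (Fin q), J.card = k ∧ (q : ℝ) * ∑ j ∈ J, f j ≤ k * ∑ j, f j := by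
  induction hk using Nat.decreasingInduction with
  | self => exact ⟨Finset.univ, by simp, le_rfl⟩
  | of_succ k hk ih =>
    obtain ⟨J, hJ, hJs⟩ := ih
    have hne : J.Nonempty := Finset.card_pos.mp (by omega)
    obtain ⟨j, hj, hmax⟩ := Finset.exists_max_image J f hne
    refine ⟨J.erase j, by rw [Finset.card_erase_of_mem hj, hJ]; rfl, ?_⟩
    have h1 : ∑ i ∈ J, f i ≤ (k + 1 : ℝ) * f j := by
      have h2 := Finset.sum_le_card_nsmul J f (f j) fun i hi => hmax i hi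
      rw [hJ, nsmul_eq_mul] at h2
      push_cast at h2
      exact h2
    have h3 : ∑ i ∈ J.erase j, f i = ∑ i ∈ J, f i - f j := by
      rw [Finset.sum_erase_eq_sub hj]
    rw [h3]
    push_cast at hJs
    have hk0 : (0 : ℝ) < k + 1 := by positivity
    have hq0 : (0 : ℝ) ≤ q := Nat.cast_nonneg _
    -- (k+1) * q * (s - f j) ≤ q * k * s ≤ k (k+1) F
    have h4 : (k + 1 : ℝ) * ((q : ℝ) * (∑ i ∈ J, f i - f j)) ≤ (k + 1) * (k * ∑ i, f i) := by
      have h5 : (q : ℝ) * ((k + 1) * (∑ i ∈ J, f i - f j)) ≤ q * (k * ∑ i ∈ J, f i) := by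
        refine mul_le_mul_of_nonneg_left ?_ hq0
        linarith
      have h6 : (k : ℝ) * (q * ∑ i ∈ J, f i) ≤ k * ((k + 1) * ∑ i, f i) :=
        mul_le_mul_of_nonneg_left hJs (Nat.cast_nonneg _)
      linarith
    exact le_of_mul_le_mul_left h4 hk0

end Pool.Agent.H813R3.Voj
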