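import Mathlib

set_option autoImplicit false

/-!
Primes dividing `n` to an odd power divide the discriminant of `ℚ(√n)`.
-/

namespace Pool.Agent.H813R3.Voj

open NumberField IntermediateField

theorem dvd_discr_of_sq {K : Type*} [Field K] [NumberField K] {p : ℕ} (hp : p.Prime) (z : 𝓞 K)
    (m : ℤ) (hz : z ^ 2 = (((p : ℤ) * m : ℤ) : 𝓞 K)) (hm : ¬ (p : ℤ) ∣ m) :
    (p : ℤ) ∣ NumberField.discr K := by
  have hpZ : _root_.Prime (p : ℤ) := Nat.prime_iff_prime_int.mp hp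
  by_contra h
  rw [NumberField.not_dvd_discr_iff_forall_liesOver K (𝓞 K) hpZ] at h
  have hmax : (Ideal.span {(p : ℤ)}).IsMaximal :=
    PrincipalIdealRing.isMaximal_of_irreducible hpZ.irreducible
  obtain ⟨P, hP, hPl⟩ :=
    Ideal.exists_maximal_ideal_liesOver_of_isIntegral (S := 𝓞 K) (Ideal.span {(p : ℤ)})
  have hu := h P hP hPl
  have hspan : P.under ℤ = Ideal.span {(p : ℤ)} := hPl.over.symm
  have hle : Ideal.map (algebraMap ℤ (𝓞 K)) (Ideal.span {(p : ℤ)}) ≤ P := by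
    rw [← hspan]; exact Ideal.map_comap_le
  have hPne : P ≠ ⊥ := by
    refine Ideal.ne_bot_of_liesOver_of_ne_bot (p := Ideal.span {(p : ℤ)}) ?_ P
    rw [Ne, Ideal.span_singleton_eq_bot]
    exact hpZ.ne_zero
  let := Localization.AtPrime.algebraOfLiesOver (Ideal.span {(p : ℤ)}) P
  have hmap := ((Algebra.isUnramifiedAt_iff_map_eq ℤ (Ideal.span {(p : ℤ)}) P).mp hu).2
  have he := (Ideal.IsDedekindDomain.ramificationIdx'_eq_one_iff hPne hle).mpr hmap
  have hmem : ((p : ℤ) : 𝓞 K) ∈ P := by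
    have : (p : ℤ) ∈ P.under ℤ := by rw [hspan]; exact Ideal.mem_span_singleton_self _
    rw [Ideal.mem_comap] at this
    simpa using this
  have hzP : z ∈ P := by
    refine hP.isPrime.mem_of_pow_mem 2 ?_
    rw [hz]
    push_cast
    exact Ideal.mul_mem_right _ _ (by simpa using hmem)
  have hz2 : (((p : ℤ) * m : ℤ) : 𝓞 K) ∈ P ^ 2 := by
    rw [← hz]; exact Ideal.pow_mem_pow hzP 2
  obtain ⟨a, b, hab⟩ : IsCoprime (p : ℤ) m := (hpZ.coprime_iff_not_dvd).mpr hm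
  have hp2 : ((p : ℤ) : 𝓞 K) ∈ P ^ 2 := by
    have h1 : (p : ℤ) = a * (p : ℤ) ^ 2 + b * ((p : ℤ) * m) := by
      have : (p : ℤ) = (a * p + b * m) * p := by rw [hab, one_mul]
      linarith
    have h2 : ((p : ℤ) : 𝓞 K) = (a : 𝓞 K) * (((p : ℤ) : 𝓞 K)) ^ 2 +
        (b : 𝓞 K) * ((((p : ℤ) * m : ℤ)) : 𝓞 K) := by
      conv_lhs => rw [h1]
      push_cast
      ring
    rw [h2]
    exact Ideal.add_mem _ (Ideal.mul_mem_left _ _ (Ideal.pow_mem_pow hmem 2))
      (Ideal.mul_mem_left _ _ hz2)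
  refine (Ideal.ramificationIdx'_ne_one_iff hle).mpr ?_ he
  rw [Ideal.map_span, Set.image_singleton, Ideal.span_singleton_le_iff_mem]
  simpa using hp2

end Pool.Agent.H813R3.Voj
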