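import Pool.Agent.H813R3.Voj.Gen

set_option autoImplicit false

/-!
The primes dividing `n` to an odd power.
-/

namespace Pool.Agent.H813R3.Voj

open Finset

/-- the primes dividing `n` exactly to an odd power -/
def oddPrimes (n : ℤ) : Finset ℕ :=
  n.natAbs.primeFactors.filter fun p => Odd (n.natAbs.factorization p)

/-- the squarefree part of `n` -/
def op (n : ℕ) : ℕ := ∏ p ∈ n.primeFactors.filter fun p => Odd (n.factorization p), p

/-- the part of the squarefree part outside `S` -/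
def opS (S : Finset ℕ) (n : ℤ) : ℕ := ∏ p ∈ oddPrimes n \ S, p

lemma op_pos (n : ℕ) : 0 < op n :=
  Finset.prod_pos fun _ hp =>
    (Nat.prime_of_mem_primeFactors (Finset.mem_filter.mp hp).1).pos

lemma opS_pos (S : Finset ℕ) (n : ℤ) : 0 < opS S n := by
  refine Finset.prod_pos fun p hp => ?_
  rw [Finset.mem_sdiff, oddPrimes, Finset.mem_filter] at hp
  exact (Nat.prime_of_mem_primeFactors hp.1.1).pos

lemma opS_neg (S : Finset ℕ) (n : ℤ) : opS S (-n) = opS S n := by
  unfold opS oddPrimes; rw [Int.natAbs_neg]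

lemma op_le (S : Finset ℕ) (n : ℤ) :
    op n.natAbs ≤ (∏ p ∈ S, (p + 1)) * opS S n := by
  have h0 : op n.natAbs = ∏ p ∈ oddPrimes n, p := rfl
  unfold opS
  rw [h0, ← Finset.prod_inter_mul_prod_sdiff (oddPrimes n) S (fun p => p)]
  refine Nat.mul_le_mul_right _ ?_
  calc ∏ p ∈ oddPrimes n ∩ S, p ≤ ∏ p ∈ oddPrimes n ∩ S, (p + 1) :=
        Finset.prod_le_prod' fun p _ => by omega
    _ ≤ ∏ p ∈ S, (p + 1) :=
        Finset.prod_le_prod_of_subset_of_one_le' Finset.inter_subset_right fun p _ _ => by omega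

lemma exists_sq (n : ℕ) (hn : n ≠ 0) : ∃ t : ℕ, n = op n * t ^ 2 := by
  refine ⟨∏ p ∈ n.primeFactors, p ^ (n.factorization p / 2), ?_⟩
  have h1 : op n = ∏ p ∈ n.primeFactors, p ^ (n.factorization p % 2) := by
    unfold op
    rw [Finset.prod_filter]
    refine Finset.prod_congr rfl fun p _ => ?_
    split_ifs with h
    · rw [Nat.odd_iff.mp h, pow_one]
    · rw [Nat.not_odd_iff.mp h, pow_zero]
  rw [h1, ← Finset.prod_pow, ← Finset.prod_mul_distrib]
  conv_lhs => rw [← Nat.prod_factorization_pow_eq_self hn]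
  rw [Finsupp.prod, Nat.support_factorization]
  refine Finset.prod_congr rfl fun p _ => ?_
  rw [← pow_mul, ← pow_add]
  congr 1
  omega

lemma sum_op (N : ℕ) : ∑ n ∈ Finset.Icc 1 N, ((op n : ℝ)) ^ (-(1 / 2 : ℝ)) ≤
    Real.sqrt N * (1 + Real.log N) := by
  classical
  choose! t ht using exists_sq
  have hmaps : ∀ n ∈ Finset.Icc 1 N, op n ∈ Finset.Icc 1 N := by
    intro n hn
    rw [Finset.mem_Icc] at hn ⊢
    refine ⟨op_pos n, ?_⟩
    have h1 := ht n (by omega)
    have h2 : t n ≠ 0 := by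
      intro h
      rw [h] at h1
      simp at h1
      omega
    have h3 : 1 ≤ t n ^ 2 := Nat.one_le_iff_ne_zero.mpr (pow_ne_zero _ h2)
    have h4 : op n * 1 ≤ op n * t n ^ 2 := Nat.mul_le_mul_left _ h3
    omega
  rw [← Finset.sum_fiberwise_of_maps_to hmaps]
  have h1 : ∀ s ∈ Finset.Icc 1 N,
      ∑ n ∈ Finset.Icc 1 N with op n = s, ((op n : ℝ)) ^ (-(1 / 2 : ℝ)) ≤
        Real.sqrt N * (1 / (s : ℝ)) := by
    intro s hs
    rw [Finset.mem_Icc] at hs
    have hs0 : (0 : ℝ) < s := by exact_mod_cast hs.1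
    have h2 : ∑ n ∈ Finset.Icc 1 N with op n = s, ((op n : ℝ)) ^ (-(1 / 2 : ℝ)) =
        ((Finset.Icc 1 N).filter fun n => op n = s).card * (s : ℝ) ^ (-(1 / 2 : ℝ)) := by
      rw [← nsmul_eq_mul, ← Finset.sum_const]
      refine Finset.sum_congr rfl fun n hn => ?_
      rw [(Finset.mem_filter.mp hn).2]
    rw [h2]
    have h3 : ((Finset.Icc 1 N).filter fun n => op n = s).card ≤ Nat.sqrt (N / s) := by
      calc ((Finset.Icc 1 N).filter fun n => op n = s).card
          ≤ (Finset.Icc 1 (Nat.sqrt (N / s))).card := by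
            refine Finset.card_le_card_of_injOn t ?_ ?_
            · intro n hn
              rw [Finset.mem_coe, Finset.mem_filter, Finset.mem_Icc] at hn
              rw [Finset.mem_coe, Finset.mem_Icc]
              have h4 := ht n (by omega)
              rw [hn.2] at h4
              refine ⟨?_, ?_⟩
              · rw [Nat.one_le_iff_ne_zero]
                intro h
                rw [h] at h4
                simp at h4
                omega
              · rw [Nat.le_sqrt', Nat.le_div_iff_mul_le hs.1]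
                rw [mul_comm]
                omega
            · intro n hn m hm hnm
              rw [Finset.mem_coe, Finset.mem_filter, Finset.mem_Icc] at hn hm
              rw [ht n (by omega), ht m (by omega), hn.2, hm.2, hnm]
        _ = Nat.sqrt (N / s) := by simp
    have h5 : (((Finset.Icc 1 N).filter fun n => op n = s).card : ℝ) ≤ Real.sqrt (N / s) := by
      refine (Nat.cast_le.mpr h3).trans ?_
      refine (Real.nat_sqrt_le_real_sqrt).trans ?_
      refine Real.sqrt_le_sqrt ?_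
      exact Nat.cast_div_le
    have h6 : (s : ℝ) ^ (-(1 / 2 : ℝ)) = 1 / Real.sqrt s := by
      rw [Real.rpow_neg hs0.le, ← Real.sqrt_eq_rpow, one_div]
    rw [h6]
    calc (((Finset.Icc 1 N).filter fun n => op n = s).card : ℝ) * (1 / Real.sqrt s)
        ≤ Real.sqrt (N / s) * (1 / Real.sqrt s) :=
          mul_le_mul_of_nonneg_right h5 (by positivity)
      _ = Real.sqrt N * (1 / (s : ℝ)) := by
          rw [Real.sqrt_div (Nat.cast_nonneg _)]
          have : Real.sqrt s * Real.sqrt s = s := Real.mul_self_sqrt hs0.le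
          field_simp
          rw [sq, this]
  refine (Finset.sum_le_sum h1).trans ?_
  rw [← Finset.mul_sum]
  refine mul_le_mul_of_nonneg_left ?_ (Real.sqrt_nonneg _)
  have h7 := harmonic_le_one_add_log N
  rw [harmonic_eq_sum_Icc] at h7
  push_cast at h7
  simpa [one_div] using h7

lemma sum_symm_le' (f : ℤ → ℝ) (hf : ∀ n, 0 ≤ f n) (hfn : ∀ n, f (-n) = f n) (N : ℕ) :
    ∑ n ∈ (Finset.Icc (-(N : ℤ)) N).erase 0, f n ≤
      2 * ∑ n ∈ Finset.Icc 1 N, f (n : ℤ) := by
  classical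
  have hsub : (Finset.Icc (-(N : ℤ)) N).erase 0 ⊆
      (Finset.Icc 1 N).image (fun n : ℕ => (n : ℤ)) ∪ (Finset.Icc 1 N).image (fun n : ℕ => -(n : ℤ)) := by
    intro x hx
    rw [Finset.mem_erase, Finset.mem_Icc] at hx
    rw [Finset.mem_union, Finset.mem_image, Finset.mem_image]
    rcases lt_or_gt_of_ne hx.1 with h | h
    · right
      refine ⟨x.natAbs, Finset.mem_Icc.mpr ⟨by omega, by omega⟩, by omega⟩
    · left
      refine ⟨x.natAbs, Finset.mem_Icc.mpr ⟨by omega, by omega⟩, by omega⟩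
  refine (Finset.sum_le_sum_of_subset_of_nonneg hsub fun x _ _ => hf x).trans ?_
  have h1 := Finset.sum_union_inter (s₁ := (Finset.Icc 1 N).image (fun n : ℕ => (n : ℤ)))
    (s₂ := (Finset.Icc 1 N).image (fun n : ℕ => -(n : ℤ))) (f := f)
  have h2 : 0 ≤ ∑ x ∈ (Finset.Icc 1 N).image (fun n : ℕ => (n : ℤ)) ∩
    (Finset.Icc 1 N).image (fun n : ℕ => -(n : ℤ)), f x :=
    Finset.sum_nonneg fun x _ => hf x
  have h3 : ∑ x ∈ (Finset.Icc 1 N).image (fun n : ℕ => (n : ℤ)), f x =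
      ∑ n ∈ Finset.Icc 1 N, f (n : ℤ) :=
    Finset.sum_image fun a _ b _ h => by exact_mod_cast h
  have h4 : ∑ x ∈ (Finset.Icc 1 N).image (fun n : ℕ => -(n : ℤ)), f x =
      ∑ n ∈ Finset.Icc 1 N, f (n : ℤ) := by
    rw [Finset.sum_image fun a _ b _ h => by simpa using h]
    simp only [hfn]
  linarith

theorem wt_opS (S : Finset ℕ) : Wt (fun n => (opS S n : ℝ)) (1 / 2) (1 / 2) := by
  refine ⟨fun n => by exact_mod_cast opS_pos S n, by norm_num, by norm_num, fun δ hδ => ?_⟩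
  set A : ℕ := ∏ p ∈ S, (p + 1) with hA
  have hA0 : 0 < A := Finset.prod_pos fun p _ => by omega
  refine ⟨2 * (A : ℝ) ^ (1 / 2 : ℝ) * (1 + 1 / δ), by positivity, fun N hN => ?_⟩
  have hN1 : (1 : ℝ) ≤ N := by exact_mod_cast hN
  refine (sum_symm_le' (fun n => (opS S n : ℝ) ^ (-(1 / 2 : ℝ))) (fun n => by positivity)
    (fun n => by simp only [opS_neg]) N).trans ?_
  have h1 : ∀ n ∈ Finset.Icc 1 N, (opS S (n : ℤ) : ℝ) ^ (-(1 / 2 : ℝ)) ≤
      (A : ℝ) ^ (1 / 2 : ℝ) * (op n : ℝ) ^ (-(1 / 2 : ℝ)) := by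
    intro n _
    have h2 := op_le S (n : ℤ)
    rw [Int.natAbs_natCast] at h2
    have h3 : (op n : ℝ) ≤ A * opS S (n : ℤ) := by exact_mod_cast h2
    have h4 : (0 : ℝ) < op n := by exact_mod_cast op_pos n
    have h5 : (0 : ℝ) < opS S (n : ℤ) := by exact_mod_cast opS_pos S _
    have hA' : (0 : ℝ) < A := by exact_mod_cast hA0
    rw [Real.rpow_neg h5.le, Real.rpow_neg h4.le, ← div_eq_mul_inv, ← one_div,
      div_le_div_iff₀ (by positivity) (by positivity), one_mul, ← Real.mul_rpow hA'.le h5.le]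
    exact Real.rpow_le_rpow h4.le h3 (by norm_num)
  have h2 := (Finset.sum_le_sum h1)
  rw [← Finset.mul_sum] at h2
  have h3 := sum_op N
  have h4 : Real.sqrt N * (1 + Real.log N) ≤ (1 + 1 / δ) * (N : ℝ) ^ (1 / 2 + δ) := by
    have h5 := Real.log_le_rpow_div (show (0 : ℝ) ≤ N by positivity) hδ
    have h6 : (1 : ℝ) ≤ (N : ℝ) ^ δ := Real.one_le_rpow hN1 hδ.le
    rw [Real.rpow_add (by linarith), ← Real.sqrt_eq_rpow]
    have h7 : 1 + Real.log N ≤ (1 + 1 / δ) * (N : ℝ) ^ δ := by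
      have : (N : ℝ) ^ δ / δ = 1 / δ * (N : ℝ) ^ δ := by ring
      rw [add_mul, one_mul]
      linarith
    calc Real.sqrt N * (1 + Real.log N) ≤ Real.sqrt N * ((1 + 1 / δ) * (N : ℝ) ^ δ) :=
          mul_le_mul_of_nonneg_left h7 (Real.sqrt_nonneg _)
      _ = _ := by ring
  have h5 : (0 : ℝ) ≤ (A : ℝ) ^ (1 / 2 : ℝ) := by positivity
  have h6 : (A : ℝ) ^ (1 / 2 : ℝ) * ∑ n ∈ Finset.Icc 1 N, ((op n : ℝ)) ^ (-(1 / 2 : ℝ)) ≤
      (A : ℝ) ^ (1 / 2 : ℝ) * ((1 + 1 / δ) * (N : ℝ) ^ (1 / 2 + δ)) :=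
    mul_le_mul_of_nonneg_left (h3.trans h4) h5
  calc 2 * ∑ n ∈ Finset.Icc 1 N, (opS S (n : ℤ) : ℝ) ^ (-(1 / 2 : ℝ))
      ≤ 2 * ((A : ℝ) ^ (1 / 2 : ℝ) * ((1 + 1 / δ) * (N : ℝ) ^ (1 / 2 + δ))) := by linarith
    _ = _ := by ring

end Pool.Agent.H813R3.Voj
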