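import Pool.Agent.H813R3.Voj.Disc
import Pool.Agent.H813R3.Voj.Sf
set_option autoImplicit false
namespace Pool.Agent.H813R3.Voj

open NumberField IntermediateField Polynomial

lemma isIntegral_of_sq {y : ℂ} {n : ℤ} (hy : y ^ 2 = n) : IsIntegral ℚ y := by
  refine IsIntegral.of_pow (n := 2) (by norm_num) ?_
  rw [hy]
  have h := isIntegral_algebraMap (R := ℚ) (A := ℂ) (x := (n : ℚ))
  simpa using h

lemma numberField_of_sq {y : ℂ} {n : ℤ} (hy : y ^ 2 = n) : NumberField ℚ⟮y⟯ := by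
  have := IntermediateField.adjoin.finiteDimensional (isIntegral_of_sq hy)
  exact { to_charZero := inferInstance, to_finiteDimensional := this }

lemma finrank_le_two {y : ℂ} {n : ℤ} (hy : y ^ 2 = n) : Module.finrank ℚ ℚ⟮y⟯ ≤ 2 := by
  rw [IntermediateField.adjoin.finrank (isIntegral_of_sq hy)]
  have h1 : (minpoly ℚ y) ∣ (X ^ 2 - C (n : ℚ)) := by
    refine minpoly.dvd _ _ ?_
    simp [hy]
  have h2 : (X ^ 2 - C (n : ℚ)) ≠ 0 := X_pow_sub_C_ne_zero (by norm_num) _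
  refine (natDegree_le_of_dvd h1 h2).trans ?_
  rw [natDegree_X_pow_sub_C]

lemma dvd_discr_of_odd {y : ℂ} {n : ℤ} (hn : n ≠ 0) (hy : y ^ 2 = n) [NumberField ℚ⟮y⟯]
    {p : ℕ} (hp : p ∈ oddPrimes n) : (p : ℤ) ∣ NumberField.discr ℚ⟮y⟯ := by
  unfold oddPrimes at hp
  rw [Finset.mem_filter] at hp
  have hp' := Nat.prime_of_mem_primeFactors hp.1
  obtain ⟨k, hk⟩ := hp.2
  have h0 : n.natAbs ≠ 0 := Int.natAbs_ne_zero.mpr hn
  -- n = p ^ (2 k + 1) * m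
  have h1 : p ^ (2 * k + 1) ∣ n.natAbs := by
    rw [← hk]; exact Nat.ordProj_dvd _ _
  obtain ⟨m, hm⟩ : ((p : ℤ)) ^ (2 * k + 1) ∣ n := by
    rw [← Int.natCast_pow]
    exact Int.natCast_dvd.mpr h1
  have hpm : ¬ (p : ℤ) ∣ m := by
    rintro ⟨m', hm'⟩
    have h2 : p ^ (2 * k + 2) ∣ n.natAbs := by
      rw [← Int.natCast_dvd]
      push_cast
      exact ⟨m', by rw [hm, hm']; ring⟩
    have h3 := (hp'.pow_dvd_iff_le_factorization h0).mp h2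
    omega
  set g : ℚ⟮y⟯ := AdjoinSimple.gen ℚ y with hg
  have hg2 : g ^ 2 = (n : ℚ⟮y⟯) := by
    apply Subtype.ext
    push_cast
    rw [hg, AdjoinSimple.coe_gen]
    simpa using hy
  have hp0 : (p : ℚ⟮y⟯) ≠ 0 := by exact_mod_cast hp'.ne_zero
  set z : ℚ⟮y⟯ := g / (p : ℚ⟮y⟯) ^ k with hz
  have hz2 : z ^ 2 = (((p : ℤ) * m : ℤ) : ℚ⟮y⟯) := by
    rw [hz, div_pow, hg2, hm]
    push_cast
    field_simp
    ring
  have hzint : IsIntegral ℤ z := by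
    refine IsIntegral.of_pow (n := 2) (by norm_num) ?_
    rw [hz2]
    exact isIntegral_algebraMap (R := ℤ) (A := ℚ⟮y⟯) (x := (p : ℤ) * m)
  obtain ⟨w, hw⟩ : ∃ w : 𝓞 ℚ⟮y⟯, (w : ℚ⟮y⟯) = z := ⟨⟨z, hzint⟩, rfl⟩
  refine dvd_discr_of_sq hp' w m ?_ hpm
  apply RingOfIntegers.ext
  have h5 : ((w ^ 2 : 𝓞 ℚ⟮y⟯) : ℚ⟮y⟯) = (w : ℚ⟮y⟯) ^ 2 := by simp
  have h6 : ((((p : ℤ) * m : ℤ) : 𝓞 ℚ⟮y⟯) : ℚ⟮y⟯) = (((p : ℤ) * m : ℤ) : ℚ⟮y⟯) := by simp
  exact (h5.trans (by rw [hw, hz2])).trans h6.symm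

theorem log_opS_le {y : ℂ} {n : ℤ} (hn : n ≠ 0) (hy : y ^ 2 = n) [h : NumberField ℚ⟮y⟯]
    (S : Finset ℕ) : Real.log (opS S n) ≤
      2 * (Real.log |(NumberField.discr ℚ⟮y⟯ : ℝ)| / Module.finrank ℚ ℚ⟮y⟯) := by
  have hd0 : NumberField.discr ℚ⟮y⟯ ≠ 0 := NumberField.discr_ne_zero _
  have h1 : (opS S n) ∣ (NumberField.discr ℚ⟮y⟯).natAbs := by
    unfold opS
    refine Finset.prod_primes_dvd _ ?_ ?_
    · intro p hp
      rw [Finset.mem_sdiff] at hp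
      exact (Nat.prime_of_mem_primeFactors (Finset.mem_filter.mp hp.1).1).prime
    · intro p hp
      rw [Finset.mem_sdiff] at hp
      exact Int.natCast_dvd.mp (dvd_discr_of_odd hn hy hp.1)
  have h2 := Nat.le_of_dvd (Int.natAbs_pos.mpr hd0) h1
  have h3 : (opS S n : ℝ) ≤ |(NumberField.discr ℚ⟮y⟯ : ℝ)| := by
    have : ((NumberField.discr ℚ⟮y⟯).natAbs : ℝ) = |(NumberField.discr ℚ⟮y⟯ : ℝ)| := by
      rw [Nat.cast_natAbs]; push_cast; rfl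
    rw [← this]
    exact_mod_cast h2
  have h4 : (0 : ℝ) < opS S n := by exact_mod_cast opS_pos S n
  have h5 := Real.log_le_log h4 h3
  have h6 : 0 ≤ Real.log |(NumberField.discr ℚ⟮y⟯ : ℝ)| :=
    (Real.log_nonneg (by exact_mod_cast opS_pos S n)).trans h5
  have h7 : (0 : ℝ) < Module.finrank ℚ ℚ⟮y⟯ := by exact_mod_cast Module.finrank_pos
  have h8 : (Module.finrank ℚ ℚ⟮y⟯ : ℝ) ≤ 2 := by exact_mod_cast finrank_le_two hy
  refine h5.trans ?_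
  rw [← mul_div_assoc, le_div_iff₀ h7]
  nlinarith

end Pool.Agent.H813R3.Voj
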