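import Mathlib

set_option autoImplicit false

/-!
If `z ^ m = p u` with `p ∤ u` in the ring of integers of `K`, then `p ^ (m - 1)` divides the
discriminant.
-/

namespace Pool.Agent.H813R3.Voj

open NumberField IntermediateField

theorem pow_dvd_discr {K : Type*} [Field K] [NumberField K] {p m : ℕ} (hp : p.Prime)
    (z : 𝓞 K) (u : ℤ) (hz : z ^ m = (((p : ℤ) * u : ℤ) : 𝓞 K))
    (hu : ¬ (p : ℤ) ∣ u) : p ^ (m - 1) ∣ (NumberField.discr K).natAbs := by
  have hpZ : _root_.Prime (p : ℤ) := Nat.prime_iff_prime_int.mp hp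
  have hmax : (Ideal.span {(p : ℤ)}).IsMaximal :=
    PrincipalIdealRing.isMaximal_of_irreducible hpZ.irreducible
  obtain ⟨P, hP, hPl⟩ :=
    Ideal.exists_maximal_ideal_liesOver_of_isIntegral (S := 𝓞 K) (Ideal.span {(p : ℤ)})
  have hspan : P.under ℤ = Ideal.span {(p : ℤ)} := hPl.over.symm
  have hmem : ((p : ℤ) : 𝓞 K) ∈ P := by
    have : (p : ℤ) ∈ P.under ℤ := by rw [hspan]; exact Ideal.mem_span_singleton_self _
    rw [Ideal.mem_comap] at this
    simpa using this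
  have hzP : z ∈ P := by
    refine hP.isPrime.mem_of_pow_mem m ?_
    rw [hz]
    push_cast
    exact Ideal.mul_mem_right _ _ (by simpa using hmem)
  have hz2 : (((p : ℤ) * u : ℤ) : 𝓞 K) ∈ P ^ m := by
    rw [← hz]; exact Ideal.pow_mem_pow hzP m
  obtain ⟨a, b, hab⟩ : IsCoprime (p : ℤ) u := (hpZ.coprime_iff_not_dvd).mpr hu
  have hpk : ∀ k : ℕ, k ≤ m → ((p : ℤ) : 𝓞 K) ∈ P ^ k := by
    intro k
    induction k with
    | zero => intro _; simp
    | succ k ih =>
      intro hk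
      have h1 : (p : ℤ) = a * ((p : ℤ) * (p : ℤ)) + b * ((p : ℤ) * u) := by
        have : (p : ℤ) = (a * p + b * u) * p := by rw [hab, one_mul]
        linarith
      have h2 : ((p : ℤ) : 𝓞 K) = (a : 𝓞 K) * (((p : ℤ) : 𝓞 K) * ((p : ℤ) : 𝓞 K)) +
          (b : 𝓞 K) * ((((p : ℤ) * u : ℤ)) : 𝓞 K) := by
        conv_lhs => rw [h1]
        push_cast
        ring
      rw [h2]
      refine Ideal.add_mem _ (Ideal.mul_mem_left _ _ ?_) (Ideal.mul_mem_left _ _ ?_)
      · rw [pow_succ]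
        exact Ideal.mul_mem_mul (ih (by omega)) hmem
      · exact Ideal.pow_le_pow_right hk hz2
  have hdvd : P ^ m ∣ Ideal.map (algebraMap ℤ (𝓞 K)) (Ideal.span {(p : ℤ)}) := by
    rw [Ideal.dvd_iff_le, Ideal.map_span, Set.image_singleton, Ideal.span_singleton_le_iff_mem]
    simpa using hpk m le_rfl
  have hne : Ideal.span {(p : ℤ)} ≠ ⊥ := by
    rw [Ne, Ideal.span_singleton_eq_bot]; exact hpZ.ne_zero
  have h3 := pow_sub_one_dvd_differentIdeal ℤ P m hne hdvd
  have h4 := Ideal.absNorm_dvd_absNorm_of_le (Ideal.dvd_iff_le.mp h3)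
  rw [map_pow, NumberField.absNorm_differentIdeal K (𝓞 K)] at h4
  refine (pow_dvd_pow_of_dvd ?_ (m - 1)).trans h4
  have h5 : ((Ideal.absNorm P : ℤ)) ∈ P.under ℤ := by
    rw [Ideal.mem_comap]
    simpa using Ideal.absNorm_mem P
  rw [hspan, Ideal.mem_span_singleton] at h5
  exact_mod_cast h5

end Pool.Agent.H813R3.Voj
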