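import Pool.Agent.H813R3.Voj.Sf

set_option autoImplicit false

/-!
The primes dividing `n` to a power not divisible by `m`.
-/

namespace Pool.Agent.H813R3.Voj

open Finset

/-- the primes outside `S` dividing `n` exactly to a power not divisible by `m` -/
def primesM (m : ℕ) (n : ℤ) : Finset ℕ :=
  n.natAbs.primeFactors.filter fun p => ¬ m ∣ n.natAbs.factorization p

/-- their product -/
def rhoM (m : ℕ) (S : Finset ℕ) (n : ℤ) : ℕ := ∏ p ∈ primesM m n \ S, p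

/-- the product of all the primes dividing `n` exactly to a power not divisible by `m` -/
def rm (m n : ℕ) : ℕ := ∏ p ∈ n.primeFactors.filter fun p => ¬ m ∣ n.factorization p, p

lemma rm_pos (m n : ℕ) : 0 < rm m n :=
  Finset.prod_pos fun _ hp =>
    (Nat.prime_of_mem_primeFactors (Finset.mem_filter.mp hp).1).pos

lemma rhoM_pos (m : ℕ) (S : Finset ℕ) (n : ℤ) : 0 < rhoM m S n := by
  refine Finset.prod_pos fun p hp => ?_
  rw [Finset.mem_sdiff, primesM, Finset.mem_filter] at hp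
  exact (Nat.prime_of_mem_primeFactors hp.1.1).pos

lemma rhoM_neg (m : ℕ) (S : Finset ℕ) (n : ℤ) : rhoM m S (-n) = rhoM m S n := by
  unfold rhoM primesM; rw [Int.natAbs_neg]

lemma rm_le (m : ℕ) (S : Finset ℕ) (n : ℤ) :
    rm m n.natAbs ≤ (∏ p ∈ S, (p + 1)) * rhoM m S n := by
  have h0 : rm m n.natAbs = ∏ p ∈ primesM m n, p := rfl
  unfold rhoM
  rw [h0, ← Finset.prod_inter_mul_prod_sdiff (primesM m n) S (fun p => p)]
  refine Nat.mul_le_mul_right _ ?_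
  calc ∏ p ∈ primesM m n ∩ S, p ≤ ∏ p ∈ primesM m n ∩ S, (p + 1) :=
        Finset.prod_le_prod' fun p _ => by omega
    _ ≤ ∏ p ∈ S, (p + 1) :=
        Finset.prod_le_prod_of_subset_of_one_le' Finset.inter_subset_right fun p _ _ => by omega

lemma rm_mul (m : ℕ) {a b : ℕ} (h : Nat.Coprime a b) : rm m (a * b) = rm m a * rm m b := by
  unfold rm
  rw [h.primeFactors_mul, Finset.filter_union, Finset.prod_union]
  · congr 1
    · refine Finset.prod_congr (Finset.filter_congr fun p hp => ?_) fun _ _ => rfl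
      rw [Nat.factorization_eq_of_coprime_left h (Nat.mem_primeFactors_iff_mem_primeFactorsList.mp hp)]
    · refine Finset.prod_congr (Finset.filter_congr fun p hp => ?_) fun _ _ => rfl
      rw [Nat.factorization_eq_of_coprime_right h (Nat.mem_primeFactors_iff_mem_primeFactorsList.mp hp)]
  · exact Finset.disjoint_filter_filter h.disjoint_primeFactors

/-- the function in Rankin's trick -/
noncomputable def gM (m : ℕ) (δ : ℝ) (n : ℕ) : ℝ :=
  (n : ℝ) ^ (-(1 / m + δ)) * (rm m n : ℝ) ^ (-(1 - 1 / (m : ℝ)))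

lemma gM_nonneg (m : ℕ) (δ : ℝ) (n : ℕ) : 0 ≤ gM m δ n := by unfold gM; positivity

lemma gM_one (m : ℕ) (δ : ℝ) : gM m δ 1 = 1 := by simp [gM, rm]

lemma gM_mul (m : ℕ) (δ : ℝ) {a b : ℕ} (h : Nat.Coprime a b) :
    gM m δ (a * b) = gM m δ a * gM m δ b := by
  unfold gM
  rw [rm_mul m h]
  push_cast
  rw [Real.mul_rpow (Nat.cast_nonneg _) (Nat.cast_nonneg _),
    Real.mul_rpow (Nat.cast_nonneg _) (Nat.cast_nonneg _)]
  ring

lemma rm_prime_pow (m : ℕ) {p : ℕ} (hp : p.Prime) (k : ℕ) :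
    rm m (p ^ (k + 1)) = if m ∣ k + 1 then 1 else p := by
  unfold rm
  rw [Nat.primeFactors_prime_pow (by omega) hp, Finset.filter_singleton]
  rw [hp.factorization_pow, Finsupp.single_eq_same]
  by_cases h : m ∣ k + 1
  · simp [h]
  · simp [h]

lemma gM_pow_le (m : ℕ) (hm : 1 ≤ m) {δ : ℝ} (hδ : 0 < δ) {p : ℕ} (hp : p.Prime) (k : ℕ) :
    gM m δ (p ^ (k + 1)) ≤
      (p : ℝ) ^ (-(1 + δ)) * ((2 : ℝ) ^ (-(1 / m + δ))) ^ (k + 1 - m) := by
  have hp0 : (0 : ℝ) < p := by exact_mod_cast hp.pos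
  have hp1 : (1 : ℝ) ≤ p := by exact_mod_cast hp.one_lt.le
  have hm0 : (0 : ℝ) < m := by exact_mod_cast hm
  set s : ℝ := (p : ℝ) ^ (-(1 / m + δ)) with hs
  set t : ℝ := (2 : ℝ) ^ (-(1 / m + δ)) with ht
  have he : 0 < 1 / (m : ℝ) + δ := by positivity
  have hs0 : 0 < s := by positivity
  have hst : s ≤ t :=
    Real.rpow_le_rpow_of_nonpos (by norm_num) (by exact_mod_cast hp.two_le) (by linarith)
  have hs1 : s ≤ 1 := Real.rpow_le_one_of_one_le_of_nonpos hp1 (by linarith)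
  have hspow : ∀ j : ℕ, s ^ j ≤ 1 := fun j => pow_le_one₀ hs0.le hs1
  have hmain : gM m δ (p ^ (k + 1)) =
      s ^ (k + 1) * (rm m (p ^ (k + 1)) : ℝ) ^ (-(1 - 1 / (m : ℝ))) := by
    unfold gM
    congr 1
    push_cast
    rw [hs, ← Real.rpow_natCast, ← Real.rpow_natCast, ← Real.rpow_mul hp0.le,
      ← Real.rpow_mul hp0.le, mul_comm]
  rw [hmain, rm_prime_pow m hp k]
  split_ifs with h
  · rw [Nat.cast_one, Real.one_rpow, mul_one]
    have hmk : m ≤ k + 1 := Nat.le_of_dvd (by omega) h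
    have h1 : s ^ (k + 1) = s ^ m * s ^ (k + 1 - m) := by
      rw [← pow_add]; congr 1; omega
    have h2 : s ^ m ≤ (p : ℝ) ^ (-(1 + δ)) := by
      rw [hs, ← Real.rpow_natCast, ← Real.rpow_mul hp0.le]
      refine Real.rpow_le_rpow_of_exponent_le hp1 ?_
      have h3 : (1 : ℝ) ≤ m := by exact_mod_cast hm
      have h4 : -(1 / (m : ℝ) + δ) * m = -(1 + δ * m) := by field_simp
      rw [h4]
      nlinarith
    rw [h1]
    exact mul_le_mul h2 (pow_le_pow_left₀ hs0.le hst _) (by positivity) (by positivity)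
  · have h1 : s ^ (k + 1) * (p : ℝ) ^ (-(1 - 1 / (m : ℝ))) = (p : ℝ) ^ (-(1 + δ)) * s ^ k := by
      rw [pow_succ, hs]
      rw [mul_assoc, ← Real.rpow_add hp0]
      rw [mul_comm]
      congr 1
      congr 1
      ring
    rw [h1]
    refine mul_le_mul_of_nonneg_left ?_ (by positivity)
    by_cases hmk : k + 1 ≤ m
    · rw [Nat.sub_eq_zero_of_le hmk, pow_zero]
      exact hspow k
    · calc s ^ k ≤ s ^ (k + 1 - m) := pow_le_pow_of_le_one hs0.le hs1 (by omega)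
        _ ≤ t ^ (k + 1 - m) := pow_le_pow_left₀ hs0.le hst _

lemma summable_t (m : ℕ) {t : ℝ} (h0 : 0 ≤ t) (h1 : t < 1) :
    Summable fun k : ℕ => t ^ (k + 1 - m) := by
  rw [← summable_nat_add_iff m]
  have h2 : (fun k : ℕ => t ^ (k + m + 1 - m)) = fun k : ℕ => t ^ (k + 1) := by
    funext k
    congr 1
    omega
  rw [h2, summable_nat_add_iff 1]
  exact summable_geometric_of_lt_one h0 h1

theorem sum_gM_le (m : ℕ) (hm : 1 ≤ m) {δ : ℝ} (hδ : 0 < δ) :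
    ∃ C : ℝ, 0 < C ∧ ∀ N : ℕ, ∑ n ∈ Finset.Icc 1 N, gM m δ n ≤ C := by
  set t : ℝ := (2 : ℝ) ^ (-(1 / (m : ℝ) + δ)) with ht
  have he : 0 < 1 / (m : ℝ) + δ := by
    have hm0 : (0 : ℝ) < m := by exact_mod_cast hm
    positivity
  have ht0 : 0 ≤ t := by positivity
  have ht1 : t < 1 := Real.rpow_lt_one_of_one_lt_of_neg (by norm_num) (by linarith)
  have hsumt := summable_t m ht0 ht1
  set K : ℝ := ∑' k : ℕ, t ^ (k + 1 - m) with hK
  have hK0 : 0 ≤ K := tsum_nonneg fun k => by positivity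
  have hs : Summable (fun n : ℕ => (n : ℝ) ^ (-(1 + δ))) :=
    Real.summable_nat_rpow.mpr (by linarith)
  have hsump : ∀ {p : ℕ}, p.Prime → Summable (fun k : ℕ => gM m δ (p ^ k)) := by
    intro p hp
    rw [← summable_nat_add_iff 1]
    exact Summable.of_nonneg_of_le (fun k => gM_nonneg m δ _) (fun k => gM_pow_le m hm hδ hp k)
      (hsumt.mul_left _)
  refine ⟨Real.exp (K * ∑' n : ℕ, (n : ℝ) ^ (-(1 + δ))), Real.exp_pos _, fun N => ?_⟩
  obtain ⟨hS1, hS2⟩ := EulerProduct.summable_and_hasSum_smoothNumbers_prod_primesBelow_tsum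
    (f := gM m δ) (gM_one m δ) (fun {a b} h => gM_mul m δ h)
    (fun {p} hp => (hsump hp).norm) (N + 1)
  have h1 : ∑ n ∈ Finset.Icc 1 N, gM m δ n ≤ ∑' k : (N + 1).smoothNumbers, gM m δ k := by
    have hmem : ∀ n ∈ Finset.Icc 1 N, n ∈ (N + 1).smoothNumbers := by
      intro n hn
      rw [Finset.mem_Icc] at hn
      rw [Nat.mem_smoothNumbers']
      intro p hp hpn
      have := Nat.le_of_dvd (by omega) hpn
      omega
    have h2 : ∑ n ∈ Finset.Icc 1 N, gM m δ n =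
        ∑ k ∈ (Finset.Icc 1 N).subtype (· ∈ (N + 1).smoothNumbers), gM m δ (k : ℕ) := by
      rw [Finset.sum_subtype_of_mem]
      exact hmem
    rw [h2]
    exact hS1.of_norm.sum_le_tsum _ (fun k _ => gM_nonneg m δ k)
  refine h1.trans ?_
  rw [hS2.tsum_eq]
  have h3 : ∀ p ∈ (N + 1).primesBelow, ∑' k : ℕ, gM m δ (p ^ k) ≤
      Real.exp (K * (p : ℝ) ^ (-(1 + δ))) := by
    intro p hp
    have hp' := Nat.prime_of_mem_primesBelow hp
    refine le_trans ?_ (Real.add_one_le_exp _)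
    rw [(hsump hp').tsum_eq_zero_add, pow_zero, gM_one, add_comm, mul_comm K]
    refine add_le_add ?_ le_rfl
    rw [hK, ← tsum_mul_left]
    exact Summable.tsum_le_tsum (fun k => gM_pow_le m hm hδ hp' k)
      ((summable_nat_add_iff 1).mpr (hsump hp')) (hsumt.mul_left _)
  have h7 : ∏ p ∈ (N + 1).primesBelow, ∑' k : ℕ, gM m δ (p ^ k) ≤
      ∏ p ∈ (N + 1).primesBelow, Real.exp (K * (p : ℝ) ^ (-(1 + δ))) := by
    refine Finset.prod_le_prod (fun p _ => tsum_nonneg fun n => gM_nonneg m δ _) h3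
  refine h7.trans ?_
  rw [← Real.exp_sum, ← Finset.mul_sum]
  refine Real.exp_le_exp.mpr (mul_le_mul_of_nonneg_left ?_ hK0)
  exact hs.sum_le_tsum _ (fun n _ => by positivity)

theorem wt_rhoM (m : ℕ) (hm : 1 ≤ m) (S : Finset ℕ) :
    Wt (fun n => (rhoM m S n : ℝ)) (1 / m) (1 - 1 / (m : ℝ)) := by
  have hm0 : (0 : ℝ) < m := by exact_mod_cast hm
  have hm1 : (1 : ℝ) ≤ m := by exact_mod_cast hm
  have hβ : 0 ≤ 1 - 1 / (m : ℝ) := by
    rw [sub_nonneg, div_le_one hm0]; exact hm1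
  refine ⟨fun n => by exact_mod_cast rhoM_pos m S n, by positivity, hβ, fun δ hδ => ?_⟩
  obtain ⟨C, hC, hCN⟩ := sum_gM_le m hm hδ
  set A : ℕ := ∏ p ∈ S, (p + 1) with hA
  have hA0 : 0 < A := Finset.prod_pos fun p _ => by omega
  refine ⟨2 * ((A : ℝ) ^ (1 - 1 / (m : ℝ)) * C), by positivity, fun N hN => ?_⟩
  have hN1 : (1 : ℝ) ≤ N := by exact_mod_cast hN
  refine (sum_symm_le' (fun n => (rhoM m S n : ℝ) ^ (-(1 - 1 / (m : ℝ)))) (fun n => by positivity)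
    (fun n => by simp only [rhoM_neg]) N).trans ?_
  have h1 : ∀ n ∈ Finset.Icc 1 N, (rhoM m S (n : ℤ) : ℝ) ^ (-(1 - 1 / (m : ℝ))) ≤
      (A : ℝ) ^ (1 - 1 / (m : ℝ)) * (N : ℝ) ^ (1 / m + δ) * gM m δ n := by
    intro n hn
    rw [Finset.mem_Icc] at hn
    have h2 := rm_le m S (n : ℤ)
    rw [Int.natAbs_natCast] at h2
    have h3 : (rm m n : ℝ) ≤ A * rhoM m S (n : ℤ) := by exact_mod_cast h2
    have h4 : (0 : ℝ) < rm m n := by exact_mod_cast rm_pos m n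
    have h5 : (0 : ℝ) < rhoM m S (n : ℤ) := by exact_mod_cast rhoM_pos m S _
    have hA' : (0 : ℝ) < A := by exact_mod_cast hA0
    have hn0 : (0 : ℝ) < n := by exact_mod_cast (show 0 < n by omega)
    have h6 : (rhoM m S (n : ℤ) : ℝ) ^ (-(1 - 1 / (m : ℝ))) ≤
        (A : ℝ) ^ (1 - 1 / (m : ℝ)) * (rm m n : ℝ) ^ (-(1 - 1 / (m : ℝ))) := by
      rw [Real.rpow_neg h5.le, Real.rpow_neg h4.le, ← div_eq_mul_inv, ← one_div,
        div_le_div_iff₀ (by positivity) (by positivity), one_mul, ← Real.mul_rpow hA'.le h5.le]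
      exact Real.rpow_le_rpow h4.le h3 hβ
    have h7 : (1 : ℝ) ≤ (N : ℝ) ^ (1 / m + δ) * (n : ℝ) ^ (-(1 / m + δ)) := by
      have h8 : (n : ℝ) ^ (1 / m + δ) ≤ (N : ℝ) ^ (1 / m + δ) :=
        Real.rpow_le_rpow hn0.le (by exact_mod_cast hn.2) (by positivity)
      calc (1 : ℝ) = (n : ℝ) ^ (1 / m + δ) * (n : ℝ) ^ (-(1 / m + δ)) := by
            rw [← Real.rpow_add hn0]; simp
        _ ≤ _ := mul_le_mul_of_nonneg_right h8 (by positivity)
    refine h6.trans ?_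
    unfold gM
    calc (A : ℝ) ^ (1 - 1 / (m : ℝ)) * (rm m n : ℝ) ^ (-(1 - 1 / (m : ℝ)))
        = (A : ℝ) ^ (1 - 1 / (m : ℝ)) * (rm m n : ℝ) ^ (-(1 - 1 / (m : ℝ))) * 1 := by ring
      _ ≤ (A : ℝ) ^ (1 - 1 / (m : ℝ)) * (rm m n : ℝ) ^ (-(1 - 1 / (m : ℝ))) *
          ((N : ℝ) ^ (1 / m + δ) * (n : ℝ) ^ (-(1 / m + δ))) :=
          mul_le_mul_of_nonneg_left h7 (by positivity)
      _ = _ := by ring
  calc 2 * ∑ n ∈ Finset.Icc 1 N, (rhoM m S (n : ℤ) : ℝ) ^ (-(1 - 1 / (m : ℝ)))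
      ≤ 2 * ∑ n ∈ Finset.Icc 1 N,
        (A : ℝ) ^ (1 - 1 / (m : ℝ)) * (N : ℝ) ^ (1 / m + δ) * gM m δ n :=
        mul_le_mul_of_nonneg_left (Finset.sum_le_sum h1) (by norm_num)
    _ = 2 * ((A : ℝ) ^ (1 - 1 / (m : ℝ)) * (N : ℝ) ^ (1 / m + δ) *
        ∑ n ∈ Finset.Icc 1 N, gM m δ n) := by
        rw [← Finset.mul_sum]
    _ ≤ 2 * ((A : ℝ) ^ (1 - 1 / (m : ℝ)) * (N : ℝ) ^ (1 / m + δ) * C) := by
        refine mul_le_mul_of_nonneg_left ?_ (by norm_num)
        exact mul_le_mul_of_nonneg_left (hCN N) (by positivity)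
    _ = _ := by ring

end Pool.Agent.H813R3.Voj
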