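import Pool.Agent.H813R3.Voj.DiscM
import Pool.Agent.H813R3.Voj.RadM

set_option autoImplicit false

namespace Pool.Agent.H813R3.Voj

open NumberField IntermediateField Polynomial

lemma isIntegral_of_powM {y : ℂ} {n : ℤ} {m : ℕ} (hm : 0 < m) (hy : y ^ m = n) :
    IsIntegral ℚ y := by
  refine IsIntegral.of_pow (n := m) hm ?_
  rw [hy]
  have h := isIntegral_algebraMap (R := ℚ) (A := ℂ) (x := (n : ℚ))
  simpa using h

lemma numberField_of_powM {y : ℂ} {n : ℤ} {m : ℕ} (hm : 0 < m) (hy : y ^ m = n) :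
    NumberField ℚ⟮y⟯ := by
  have := IntermediateField.adjoin.finiteDimensional (isIntegral_of_powM hm hy)
  exact { to_charZero := inferInstance, to_finiteDimensional := this }

lemma finrank_le {y : ℂ} {n : ℤ} {m : ℕ} (hm : 0 < m) (hy : y ^ m = n) :
    Module.finrank ℚ ℚ⟮y⟯ ≤ m := by
  rw [IntermediateField.adjoin.finrank (isIntegral_of_powM hm hy)]
  have h1 : (minpoly ℚ y) ∣ (X ^ m - C (n : ℚ)) := by
    refine minpoly.dvd _ _ ?_
    simp [hy]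
  have h2 : (X ^ m - C (n : ℚ)) ≠ 0 := X_pow_sub_C_ne_zero hm _
  refine (natDegree_le_of_dvd h1 h2).trans ?_
  rw [natDegree_X_pow_sub_C]

lemma pow_dvd_discr_of_mem {y : ℂ} {n : ℤ} {m : ℕ} (hm : m.Prime) (hn : n ≠ 0)
    (hy : y ^ m = n) [NumberField ℚ⟮y⟯] {p : ℕ} (hp : p ∈ primesM m n) :
    p ^ (m - 1) ∣ (NumberField.discr ℚ⟮y⟯).natAbs := by
  unfold primesM at hp
  rw [Finset.mem_filter] at hp
  have hp' := Nat.prime_of_mem_primeFactors hp.1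
  have h0 : n.natAbs ≠ 0 := Int.natAbs_ne_zero.mpr hn
  set k := n.natAbs.factorization p with hk
  -- n = p ^ k * n'
  have h1 : p ^ k ∣ n.natAbs := by
    rw [hk]; exact Nat.ordProj_dvd _ _
  obtain ⟨n', hn'⟩ : ((p : ℤ)) ^ k ∣ n := by
    rw [← Int.natCast_pow]
    exact Int.natCast_dvd.mpr h1
  have hpn' : ¬ (p : ℤ) ∣ n' := by
    rintro ⟨m', hm'⟩
    have h2 : p ^ (k + 1) ∣ n.natAbs := by
      rw [← Int.natCast_dvd]
      push_cast
      exact ⟨m', by rw [hn', hm']; ring⟩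
    have h3 := (hp'.pow_dvd_iff_le_factorization h0).mp h2
    omega
  have hcop : Nat.Coprime k m := ((Nat.Prime.coprime_iff_not_dvd hm).mpr hp.2).symm
  obtain ⟨a, -, ha⟩ := Nat.exists_mul_mod_eq_one_of_coprime hcop hm.one_lt
  set b := k * a / m with hb
  have hkab : k * a = m * b + 1 := by
    have := Nat.div_add_mod (k * a) m
    rw [ha] at this
    exact this.symm
  set g : ℚ⟮y⟯ := AdjoinSimple.gen ℚ y with hg
  have hgm : g ^ m = (n : ℚ⟮y⟯) := by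
    apply Subtype.ext
    push_cast
    rw [hg, AdjoinSimple.coe_gen]
    simpa using hy
  have hp0 : (p : ℚ⟮y⟯) ≠ 0 := by exact_mod_cast hp'.ne_zero
  set z : ℚ⟮y⟯ := g ^ a / (p : ℚ⟮y⟯) ^ b with hz
  have hzm : z ^ m = (((p : ℤ) * n' ^ a : ℤ) : ℚ⟮y⟯) := by
    have h2 : (g ^ a) ^ m = ((p : ℚ⟮y⟯) ^ b) ^ m * ((p : ℚ⟮y⟯) * (n' : ℚ⟮y⟯) ^ a) := by
      rw [← pow_mul, mul_comm a m, pow_mul, hgm, hn']
      push_cast
      rw [mul_pow, ← pow_mul, hkab, ← pow_mul, mul_comm b m, pow_succ]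
      ring
    rw [hz, div_pow, h2]
    push_cast
    field_simp
  have hzint : IsIntegral ℤ z := by
    refine IsIntegral.of_pow (n := m) hm.pos ?_
    rw [hzm]
    exact isIntegral_algebraMap (R := ℤ) (A := ℚ⟮y⟯) (x := (p : ℤ) * n' ^ a)
  obtain ⟨w, hw⟩ : ∃ w : 𝓞 ℚ⟮y⟯, (w : ℚ⟮y⟯) = z := ⟨⟨z, hzint⟩, rfl⟩
  have hpu : ¬ (p : ℤ) ∣ n' ^ a := fun h =>
    hpn' ((Nat.prime_iff_prime_int.mp hp').dvd_of_dvd_pow h)
  refine pow_dvd_discr hp' w (n' ^ a) ?_ hpu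
  apply RingOfIntegers.ext
  have h5 : ((w ^ m : 𝓞 ℚ⟮y⟯) : ℚ⟮y⟯) = (w : ℚ⟮y⟯) ^ m := by simp
  have h6 : ((((p : ℤ) * n' ^ a : ℤ) : 𝓞 ℚ⟮y⟯) : ℚ⟮y⟯) = (((p : ℤ) * n' ^ a : ℤ) : ℚ⟮y⟯) := by
    simp
  exact (h5.trans (by rw [hw, hzm])).trans h6.symm

theorem log_rhoM_le {y : ℂ} {n : ℤ} {m : ℕ} (hm : m.Prime) (hn : n ≠ 0) (hy : y ^ m = n)
    [h : NumberField ℚ⟮y⟯] (S : Finset ℕ) :
    ((m : ℝ) - 1) * Real.log (rhoM m S n) ≤
      m * (Real.log |(NumberField.discr ℚ⟮y⟯ : ℝ)| / Module.finrank ℚ ℚ⟮y⟯) := by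
  have hd0 : NumberField.discr ℚ⟮y⟯ ≠ 0 := NumberField.discr_ne_zero _
  have h1 : (rhoM m S n) ^ (m - 1) ∣ (NumberField.discr ℚ⟮y⟯).natAbs := by
    unfold rhoM
    rw [← Finset.prod_pow]
    refine Finset.prod_dvd_of_isRelPrime ?_ ?_
    · intro p hp q hq hpq
      rw [Finset.mem_coe, Finset.mem_sdiff, primesM, Finset.mem_filter] at hp hq
      rw [Function.onFun, ← Nat.coprime_iff_isRelPrime]
      exact Nat.Coprime.pow _ _ ((Nat.coprime_primes (Nat.prime_of_mem_primeFactors hp.1.1)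
        (Nat.prime_of_mem_primeFactors hq.1.1)).mpr hpq)
    · intro p hp
      rw [Finset.mem_sdiff] at hp
      exact pow_dvd_discr_of_mem hm hn hy hp.1
  have h2 := Nat.le_of_dvd (Int.natAbs_pos.mpr hd0) h1
  have h3 : (rhoM m S n : ℝ) ^ (m - 1) ≤ |(NumberField.discr ℚ⟮y⟯ : ℝ)| := by
    have : ((NumberField.discr ℚ⟮y⟯).natAbs : ℝ) = |(NumberField.discr ℚ⟮y⟯ : ℝ)| := by
      rw [Nat.cast_natAbs]; push_cast; rfl
    rw [← this]
    exact_mod_cast h2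
  have h4 : (0 : ℝ) < rhoM m S n := by exact_mod_cast rhoM_pos m S n
  have h5 := Real.log_le_log (by positivity) h3
  rw [Real.log_pow, Nat.cast_sub hm.one_lt.le, Nat.cast_one] at h5
  have h6 : 0 ≤ Real.log |(NumberField.discr ℚ⟮y⟯ : ℝ)| := by
    refine Real.log_nonneg ?_
    have h9 : 1 ≤ |NumberField.discr ℚ⟮y⟯| := Int.one_le_abs hd0
    exact_mod_cast h9
  have h7 : (0 : ℝ) < Module.finrank ℚ ℚ⟮y⟯ := by exact_mod_cast Module.finrank_pos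
  have h8 : (Module.finrank ℚ ℚ⟮y⟯ : ℝ) ≤ m := by exact_mod_cast finrank_le hm.pos hy
  refine h5.trans ?_
  rw [← mul_div_assoc, le_div_iff₀ h7]
  nlinarith

end Pool.Agent.H813R3.Voj
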