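import Pool.Agent.H813R3.Voj.Main

set_option autoImplicit false

/-!
The counting theorem for forms with general weights.
-/

namespace Pool.Agent.H813R3.Voj

open Finset

/-- `ρ` takes values `≥ 1` and `∑ ρ(n)^(-β)` over `0 < |n| ≤ N` is `O(N^(α+δ))` -/
structure Wt (ρ : ℤ → ℝ) (α β : ℝ) : Prop where
  pos : ∀ n, 0 < ρ n
  α0 : 0 ≤ α
  β0 : 0 ≤ β
  sum : ∀ δ : ℝ, 0 < δ → ∃ C : ℝ, 0 < C ∧ ∀ N : ℕ, 1 ≤ N →
    ∑ n ∈ (Finset.Icc (-(N : ℤ)) N).erase 0, (ρ n) ^ (-β) ≤ C * (N : ℝ) ^ (α + δ)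

theorem count_sum' {ρ : ℤ → ℝ} {α β : ℝ} (hρ : Wt ρ α β) (A B : Type) [Fintype A] [Fintype B] [DecidableEq A]
    [DecidableEq B] {δ : ℝ} (hδ : 0 < δ) :
    ∃ C : ℝ, 0 < C ∧ ∀ N : ℕ, 1 ≤ N → ∀ W : ℝ, 0 ≤ W → ∀ E : Finset (A ⊕ B → ℤ),
      (∀ m ∈ E, (∀ j, |m j| ≤ N) ∧ (∀ j, m (Sum.inl j) ≠ 0) ∧
        ∏ j, ρ (m (Sum.inl j)) ≤ W) →
      (E.card : ℝ) ≤ C * W ^ β * (N : ℝ) ^ ((Fintype.card B : ℝ) + Fintype.card A * α + δ) := by
  have hδ' : 0 < δ / (Fintype.card A + 1) := by positivity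
  obtain ⟨C, hC, hCN⟩ := hρ.sum _ hδ'
  refine ⟨C ^ Fintype.card A * 3 ^ Fintype.card B, by positivity,
    fun N hN W hW E hE => ?_⟩
  set T : Finset ℤ := Finset.Icc (-(N : ℤ)) N with hT
  have hN1 : (1 : ℝ) ≤ N := by exact_mod_cast hN
  set w : A ⊕ B → ℤ → ℝ := fun i n => Sum.elim (fun _ => if n = 0 then 0 else (ρ n) ^ (-β))
    (fun _ => 1) i with hw
  have hwnn : ∀ i n, 0 ≤ w i n := by
    intro i n
    rcases i with i | i
    · simp only [hw, Sum.elim_inl]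
      split_ifs
      · exact le_rfl
      · exact Real.rpow_nonneg (hρ.pos n).le _
    · simp only [hw, Sum.elim_inr]; norm_num
  have hmem : ∀ m ∈ E, m ∈ Fintype.piFinset (fun _ : A ⊕ B => T) := by
    intro m hm
    rw [Fintype.mem_piFinset]
    intro j
    rw [hT, Finset.mem_Icc]
    exact abs_le.mp ((hE m hm).1 j)
  have hone : ∀ m ∈ E, (1 : ℝ) ≤ W ^ β * ∏ j, w j (m j) := by
    intro m hm
    have h2 := (hE m hm).2.2
    have h0 := (hE m hm).2.1
    have h3 : (0 : ℝ) < ∏ j, ρ (m (Sum.inl j)) :=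
      Finset.prod_pos fun j _ => hρ.pos _
    rw [Fintype.prod_sum_type]
    simp only [hw, Sum.elim_inl, Sum.elim_inr, h0, if_false, Finset.prod_const_one, mul_one]
    rw [Real.finsetProd_rpow _ _ (fun j _ => (hρ.pos _).le), Real.rpow_neg h3.le,
      ← div_eq_mul_inv, one_le_div (Real.rpow_pos_of_pos h3 _)]
    exact Real.rpow_le_rpow h3.le h2 hρ.β0
  have h1 : (E.card : ℝ) ≤ ∑ m ∈ Fintype.piFinset (fun _ : A ⊕ B => T),
      W ^ β * ∏ j, w j (m j) := by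
    have h5 : (E.card : ℝ) = ∑ m ∈ E, (1 : ℝ) := by simp
    rw [h5]
    refine (Finset.sum_le_sum hone).trans ?_
    refine Finset.sum_le_sum_of_subset_of_nonneg (fun m hm => hmem m hm) fun m _ _ => ?_
    exact mul_nonneg (Real.rpow_nonneg hW _) (Finset.prod_nonneg fun j _ => hwnn _ _)
  have hsum : ∑ n ∈ T, (if n = 0 then 0 else (ρ n) ^ (-β)) =
      ∑ n ∈ T.erase 0, (ρ n) ^ (-β) := by
    rw [← Finset.sum_erase T (a := 0) (by simp)]
    refine Finset.sum_congr rfl fun n hn => ?_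
    rw [if_neg (Finset.ne_of_mem_erase hn)]
  have h6 : ∑ m ∈ Fintype.piFinset (fun _ : A ⊕ B => T), W ^ β * ∏ j, w j (m j) =
      W ^ β * ((∑ n ∈ T.erase 0, (ρ n) ^ (-β)) ^ Fintype.card A *
        (2 * (N : ℝ) + 1) ^ Fintype.card B) := by
    rw [← Finset.mul_sum]
    congr 1
    have h7 := Finset.prod_univ_sum (fun _ : A ⊕ B => T) w
    rw [← h7, Fintype.prod_sum_type]
    simp only [hw, Sum.elim_inl, Sum.elim_inr, hsum, Finset.prod_const, Finset.card_univ]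
    congr 2
    rw [Finset.sum_const, hT, Int.card_Icc]
    simp only [nsmul_eq_mul, mul_one]
    rw [show ((N : ℤ) + 1 - -(N : ℤ)).toNat = 2 * N + 1 by omega]
    push_cast
    ring
  rw [h6] at h1
  refine h1.trans ?_
  have h8 : (∑ n ∈ T.erase 0, (ρ n) ^ (-β)) ^ Fintype.card A ≤
      C ^ Fintype.card A * (N : ℝ) ^ (Fintype.card A * α + δ) := by
    have h9 : ∑ n ∈ T.erase 0, (ρ n) ^ (-β) ≤ C * (N : ℝ) ^ (α + δ / (Fintype.card A + 1)) :=
      hCN N hN
    have h10 : (0 : ℝ) ≤ ∑ n ∈ T.erase 0, (ρ n) ^ (-β) :=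
      Finset.sum_nonneg fun n _ => Real.rpow_nonneg (hρ.pos n).le _
    refine (pow_le_pow_left₀ h10 h9 _).trans ?_
    rw [mul_pow]
    refine mul_le_mul_of_nonneg_left ?_ (by positivity)
    rw [← Real.rpow_natCast, ← Real.rpow_mul (by positivity)]
    refine Real.rpow_le_rpow_of_exponent_le hN1 ?_
    have h13 : δ / (Fintype.card A + 1) * Fintype.card A ≤ δ := by
      rw [div_mul_eq_mul_div, div_le_iff₀ (by positivity)]
      nlinarith
    linarith
  have h11 : (2 * (N : ℝ) + 1) ^ Fintype.card B ≤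
      3 ^ Fintype.card B * (N : ℝ) ^ (Fintype.card B : ℝ) := by
    rw [Real.rpow_natCast, ← mul_pow]
    exact pow_le_pow_left₀ (by positivity) (by linarith) _
  have h12 : (N : ℝ) ^ ((Fintype.card B : ℝ) + Fintype.card A * α + δ) =
      (N : ℝ) ^ (Fintype.card B : ℝ) * (N : ℝ) ^ (Fintype.card A * α + δ) := by
    rw [← Real.rpow_add (by linarith)]
    congr 1
    ring
  rw [h12]
  have hWβ : 0 ≤ W ^ β := Real.rpow_nonneg hW _
  have hs0 : (0 : ℝ) ≤ (∑ n ∈ T.erase 0, (ρ n) ^ (-β)) ^ Fintype.card A :=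
    pow_nonneg (Finset.sum_nonneg fun n _ => Real.rpow_nonneg (hρ.pos n).le _) _
  calc W ^ β * ((∑ n ∈ T.erase 0, (ρ n) ^ (-β)) ^ Fintype.card A *
        (2 * (N : ℝ) + 1) ^ Fintype.card B)
      ≤ W ^ β * ((C ^ Fintype.card A * (N : ℝ) ^ (Fintype.card A * α + δ)) *
        (3 ^ Fintype.card B * (N : ℝ) ^ (Fintype.card B : ℝ))) := by
        refine mul_le_mul_of_nonneg_left (mul_le_mul h8 h11 (by positivity) (by positivity)) hWβ
    _ = _ := by ring

theorem count_forms' {ρ : ℤ → ℝ} {α β : ℝ} (hρ : Wt ρ α β) (r q : ℕ) (hq : 1 ≤ q) (P : Fin q → ℤ × ℤ) (hP0 : ∀ j, P j ≠ 0)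
    (hP : ∀ i j, i ≠ j → (P i).1 * (P j).2 - (P j).1 * (P i).2 ≠ 0)
    (k : ℕ) (hkq : k ≤ q) (hkr : k ≤ r + 1) {δ : ℝ} (hδ : 0 < δ) :
    ∃ C : ℝ, 0 < C ∧ ∀ H : ℕ, 1 ≤ H → ∀ Z : ℝ, 1 ≤ Z → ∀ E : Finset (Fin (r + 1) → ℤ),
      (∀ a ∈ E, (∀ i, |a i| ≤ H) ∧ (∀ j, ev a (P j) ≠ 0) ∧
        ∏ j, ρ (ev a (P j)) ≤ Z) →
      (E.card : ℝ) ≤ C * Z ^ (β * ((k : ℝ) / q)) * (H : ℝ) ^ (((r + 1 - k : ℕ) : ℝ) + k * α + δ) := by
  classical
  obtain ⟨t0, ht0⟩ := exists_aux P hP0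
  have hq0 : (0 : ℝ) < q := by exact_mod_cast hq
  -- the points attached to a subset
  set Q : (J : Finset (Fin q)) → ({j // j ∈ J} ⊕ Fin (r + 1 - k)) → ℤ × ℤ :=
    fun J => Sum.elim (fun j => P j.1) (fun i => (1, ((t0 + (i : ℕ) : ℕ) : ℤ))) with hQ
  have hQdet : ∀ J : Finset (Fin q), ∀ i j, i ≠ j →
      (Q J i).1 * (Q J j).2 - (Q J j).1 * (Q J i).2 ≠ 0 := by
    intro J i j hij
    rcases i with i | i <;> rcases j with j | j
    · simp only [hQ, Sum.elim_inl]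
      refine hP _ _ fun h => hij ?_
      rw [Subtype.ext h]
    · simp only [hQ, Sum.elim_inl, Sum.elim_inr]
      exact ht0 _ (Nat.le_add_right _ _) _
    · simp only [hQ, Sum.elim_inl, Sum.elim_inr]
      intro h
      exact ht0 (t0 + (i : ℕ)) (Nat.le_add_right _ _) j.1 (by linarith)
    · simp only [hQ, Sum.elim_inr]
      intro h
      apply hij
      congr 1
      apply Fin.ext
      push_cast at h
      omega
  choose! C hC hCN using fun J : Finset (Fin q) =>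
    count_sum' hρ {j // j ∈ J} (Fin (r + 1 - k)) (δ := δ) hδ
  set L : Finset (Fin q) → ℕ := fun J => ∑ i, lam r (Q J i) + 1 with hL
  have hL1 : ∀ J, (1 : ℝ) ≤ L J := fun J => by
    simp only [hL]; push_cast
    have : (0 : ℝ) ≤ ∑ i, (lam r (Q J i) : ℝ) := Finset.sum_nonneg fun _ _ => Nat.cast_nonneg _
    linarith
  set e : ℝ := ((r + 1 - k : ℕ) : ℝ) + k * α + δ with he
  refine ⟨∑ J ∈ Finset.univ.powersetCard k, C J * (L J : ℝ) ^ e + 1, ?_,
    fun H hH Z hZ E hE => ?_⟩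
  · have : 0 ≤ ∑ J ∈ (Finset.univ : Finset (Fin q)).powersetCard k, C J * (L J : ℝ) ^ e :=
      Finset.sum_nonneg fun J _ => mul_nonneg (hC J).le (by positivity)
    linarith
  set W : ℝ := Z ^ ((k : ℝ) / q) with hW
  have hW0 : 0 < W := Real.rpow_pos_of_pos (by linarith) _
  -- the covering
  have hcov : ∀ a ∈ E, ∃ J ∈ (Finset.univ : Finset (Fin q)).powersetCard k,
      ∏ j : {j // j ∈ J}, ρ (ev a (P j.1)) ≤ W := by
    intro a ha
    obtain ⟨_, _, h3⟩ := hE a ha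
    obtain ⟨J, hJ, hJs⟩ := exists_small (fun j => Real.log (ρ (ev a (P j)))) k hkq
    refine ⟨J, Finset.mem_powersetCard.mpr ⟨Finset.subset_univ _, hJ⟩, ?_⟩
    have hpos : ∀ j, (0 : ℝ) < ρ (ev a (P j)) := fun j => hρ.pos _
    rw [Finset.prod_coe_sort J (fun j => ρ (ev a (P j)))]
    have h4 : Real.log (∏ j ∈ J, ρ (ev a (P j))) ≤ Real.log W := by
      rw [Real.log_prod (fun j _ => (hpos j).ne'), hW, Real.log_rpow (by linarith)]
      have h5 : ∑ j, Real.log (ρ (ev a (P j))) ≤ Real.log Z := by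
        rw [← Real.log_prod (fun j _ => (hpos j).ne')]
        exact Real.log_le_log (Finset.prod_pos fun j _ => hpos j) h3
      rw [div_mul_eq_mul_div, le_div_iff₀ hq0]
      have h6 : (k : ℝ) * ∑ j, Real.log (ρ (ev a (P j))) ≤ k * Real.log Z :=
        mul_le_mul_of_nonneg_left h5 (Nat.cast_nonneg _)
      linarith
    exact (Real.log_le_log_iff (Finset.prod_pos fun j _ => hpos j) hW0).mp h4
  -- the pieces
  have hpiece : ∀ J ∈ (Finset.univ : Finset (Fin q)).powersetCard k,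
      ((E.filter fun a => ∏ j : {j // j ∈ J}, ρ (ev a (P j.1)) ≤ W).card : ℝ) ≤
        C J * (L J : ℝ) ^ e * (W ^ β * (H : ℝ) ^ e) := by
    intro J hJ
    rw [Finset.mem_powersetCard] at hJ
    set F := E.filter fun a => ∏ j : {j // j ∈ J}, ρ (ev a (P j.1)) ≤ W with hF
    set Φ : (Fin (r + 1) → ℤ) → ({j // j ∈ J} ⊕ Fin (r + 1 - k)) → ℤ :=
      fun a i => ev a (Q J i) with hΦ
    have hcard : Fintype.card ({j // j ∈ J} ⊕ Fin (r + 1 - k)) = r + 1 := by
      rw [Fintype.card_sum, Fintype.card_coe, Fintype.card_fin, hJ.2]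
      omega
    have hinj : Function.Injective Φ := by
      intro a b hab
      rw [← sub_eq_zero]
      refine ev_inj hcard (Q J) (hQdet J) _ fun i => ?_
      rw [ev_sub, sub_eq_zero]
      exact congrFun hab i
    have h1 := hCN J (L J * H) (Nat.mul_pos (Nat.succ_pos _) hH) W hW0.le (F.image Φ) ?_
    · rw [Finset.card_image_of_injective _ hinj, Fintype.card_fin] at h1
      refine h1.trans (le_of_eq ?_)
      rw [Fintype.card_coe, hJ.2]
      push_cast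
      rw [Real.mul_rpow (by linarith [hL1 J]) (by positivity)]
      simp only [he]
      ring
    · intro m hm
      obtain ⟨a, ha, rfl⟩ := Finset.mem_image.mp hm
      rw [hF, Finset.mem_filter] at ha
      obtain ⟨h2, h3, _⟩ := hE a ha.1
      refine ⟨fun i => ?_, fun j => ?_, ?_⟩
      · refine (abs_ev_le a (Q J i) H h2).trans ?_
        have h4 : lam r (Q J i) ≤ L J := by
          have := Finset.single_le_sum (f := fun i => lam r (Q J i)) (fun _ _ => Nat.zero_le _)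
            (Finset.mem_univ i)
          simp only [hL]

          omega
        exact_mod_cast Nat.mul_le_mul_right H h4
      · exact h3 j.1
      · exact ha.2
  have h7 : (E.card : ℝ) ≤ ∑ J ∈ (Finset.univ : Finset (Fin q)).powersetCard k,
      ((E.filter fun a => ∏ j : {j // j ∈ J}, ρ (ev a (P j.1)) ≤ W).card : ℝ) := by
    have h8 : E ⊆ ((Finset.univ : Finset (Fin q)).powersetCard k).biUnion fun J =>
        E.filter fun a => ∏ j : {j // j ∈ J}, ρ (ev a (P j.1)) ≤ W := by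
      intro a ha
      obtain ⟨J, hJ, hJW⟩ := hcov a ha
      rw [Finset.mem_biUnion]
      exact ⟨J, hJ, Finset.mem_filter.mpr ⟨ha, hJW⟩⟩
    exact_mod_cast (Finset.card_le_card h8).trans Finset.card_biUnion_le
  refine h7.trans ((Finset.sum_le_sum hpiece).trans ?_)
  rw [← Finset.sum_mul]
  have h10 : Z ^ (β * ((k : ℝ) / q)) = W ^ β := by
    rw [hW, ← Real.rpow_mul (by linarith), mul_comm]
  rw [h10]
  have h9 : 0 ≤ W ^ β * (H : ℝ) ^ e := by positivity
  nlinarith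

end Pool.Agent.H813R3.Voj
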