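import Pool.Agent.H813R3.Voj.Disc2

set_option autoImplicit false

/-!
Points of a hyperelliptic curve over rational points of the line.
-/

namespace Pool.Agent.H813R3.Voj

open Finset

/-- the linear form attached to a rational point, at a rational number -/
def lin (P : ℤ × ℤ) (x : ℚ) : ℤ := P.2 * x.num - P.1 * x.den

/-- coefficient vector -/
def rvec (x : ℚ) : Fin (1 + 1) → ℤ := ![x.num, -x.den]

lemma rvec_inj : Function.Injective rvec := by
  intro x y h
  have h0 := congrFun h 0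
  have h1 := congrFun h 1
  simp only [rvec, Matrix.cons_val_zero, Matrix.cons_val_one] at h0 h1
  refine Rat.ext h0 ?_
  have : (x.den : ℤ) = y.den := by linarith
  exact_mod_cast this

lemma ev_rvec (x : ℚ) (P : ℤ × ℤ) : ev (rvec x) P = lin P x := by
  unfold ev lin rvec
  rw [Fin.sum_univ_two]
  simp
  ring

/-- the primes dividing the resultants -/
def badPrimes {q : ℕ} (P : Fin q → ℤ × ℤ) (a : ℤ) : Finset ℕ :=
  a.natAbs.primeFactors ∪ Finset.univ.biUnion fun i => Finset.univ.biUnion fun j =>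
    ((P i).1 * (P j).2 - (P j).1 * (P i).2).natAbs.primeFactors

lemma not_dvd_two {q : ℕ} (P : Fin q → ℤ × ℤ) (a : ℤ)
    (hdet : ∀ i j, i ≠ j → (P i).1 * (P j).2 - (P j).1 * (P i).2 ≠ 0) (x : ℚ)
    {p : ℕ} (hp : p.Prime) (hpS : p ∉ badPrimes P a) {i j : Fin q} (hij : i ≠ j)
    (hi : (p : ℤ) ∣ lin (P i) x) (hj : (p : ℤ) ∣ lin (P j) x) : False := by
  set D := (P i).1 * (P j).2 - (P j).1 * (P i).2 with hD
  have hpD : ¬ (p : ℤ) ∣ D := by
    intro h
    apply hpS
    unfold badPrimes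
    rw [Finset.mem_union]
    right
    rw [Finset.mem_biUnion]
    refine ⟨i, Finset.mem_univ _, ?_⟩
    rw [Finset.mem_biUnion]
    refine ⟨j, Finset.mem_univ _, ?_⟩
    rw [Nat.mem_primeFactors]
    exact ⟨hp, Int.natCast_dvd.mp h, Int.natAbs_ne_zero.mpr (hdet i j hij)⟩
  have hpZ : _root_.Prime (p : ℤ) := Nat.prime_iff_prime_int.mp hp
  have h1 : (p : ℤ) ∣ D * x.num := by
    have : D * x.num = (P i).1 * lin (P j) x - (P j).1 * lin (P i) x := by
      simp only [hD, lin]; ring
    rw [this]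
    exact dvd_sub (Dvd.dvd.mul_left hj _) (Dvd.dvd.mul_left hi _)
  have h2 : (p : ℤ) ∣ D * x.den := by
    have : D * x.den = (P i).2 * lin (P j) x - (P j).2 * lin (P i) x := by
      simp only [hD, lin]; ring
    rw [this]
    exact dvd_sub (Dvd.dvd.mul_left hj _) (Dvd.dvd.mul_left hi _)
  have h3 := (hpZ.dvd_or_dvd h1).resolve_left hpD
  have h4 := (hpZ.dvd_or_dvd h2).resolve_left hpD
  have h5 : p ∣ Nat.gcd x.num.natAbs x.den :=
    Nat.dvd_gcd (Int.natCast_dvd.mp h3) (by exact_mod_cast h4)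
  rw [x.reduced] at h5
  exact hp.one_lt.ne' (Nat.dvd_one.mp h5)

/-- the squarefree parts of the linear factors multiply -/
theorem prod_opS_le {q : ℕ} (P : Fin q → ℤ × ℤ) (a : ℤ) (ha : a ≠ 0)
    (hdet : ∀ i j, i ≠ j → (P i).1 * (P j).2 - (P j).1 * (P i).2 ≠ 0) (x : ℚ)
    (hx : ∀ j, lin (P j) x ≠ 0) :
    ∏ j, opS (badPrimes P a) (lin (P j) x) ≤ opS (badPrimes P a) (a * ∏ j, lin (P j) x) := by
  classical
  set S := badPrimes P a with hS
  have hdisj : ((Finset.univ : Finset (Fin q)) : Set (Fin q)).PairwiseDisjoint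
      fun j => oddPrimes (lin (P j) x) \ S := by
    intro i _ j _ hij
    rw [Function.onFun, Finset.disjoint_left]
    intro p hpi hpj
    rw [Finset.mem_sdiff, oddPrimes, Finset.mem_filter] at hpi hpj
    have hp := Nat.prime_of_mem_primeFactors hpi.1.1
    exact not_dvd_two P a hdet x hp hpi.2 hij
      (Int.natCast_dvd.mpr (Nat.dvd_of_mem_primeFactors hpi.1.1))
      (Int.natCast_dvd.mpr (Nat.dvd_of_mem_primeFactors hpj.1.1))
  have h1 : ∏ j, opS S (lin (P j) x) =
      ∏ p ∈ Finset.univ.biUnion (fun j => oddPrimes (lin (P j) x) \ S), p := by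
    rw [Finset.prod_biUnion hdisj]
    rfl
  rw [h1]
  unfold opS
  refine Finset.prod_le_prod_of_subset_of_one_le' ?_ ?_
  · intro p hp
    rw [Finset.mem_biUnion] at hp
    obtain ⟨j, _, hpj⟩ := hp
    rw [Finset.mem_sdiff, oddPrimes, Finset.mem_filter] at hpj
    have hp' := Nat.prime_of_mem_primeFactors hpj.1.1
    have hpa : ¬ p ∣ a.natAbs := by
      intro h
      apply hpj.2
      rw [hS, badPrimes, Finset.mem_union]
      left
      rw [Nat.mem_primeFactors]
      exact ⟨hp', h, Int.natAbs_ne_zero.mpr ha⟩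
    have hfac : (a * ∏ j, lin (P j) x).natAbs.factorization p =
        (lin (P j) x).natAbs.factorization p := by
      have h2 : (a * ∏ j, lin (P j) x).natAbs = a.natAbs * ∏ j, (lin (P j) x).natAbs := by
        rw [Int.natAbs_mul, ← Int.natAbsHom_apply (∏ j, lin (P j) x), map_prod]
        rfl
      rw [h2, Nat.factorization_mul (Int.natAbs_ne_zero.mpr ha)
        (Finset.prod_ne_zero_iff.mpr fun j _ => Int.natAbs_ne_zero.mpr (hx j)),
        Nat.factorization_prod fun j _ => Int.natAbs_ne_zero.mpr (hx j)]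
      rw [Finsupp.add_apply, Nat.factorization_eq_zero_of_not_dvd hpa, zero_add,
        Finsupp.finsetSum_apply, Finset.sum_eq_single j]
      · intro i _ hij
        refine Nat.factorization_eq_zero_of_not_dvd fun h => ?_
        exact not_dvd_two P a hdet x hp' hpj.2 hij (Int.natCast_dvd.mpr h)
          (Int.natCast_dvd.mpr (Nat.dvd_of_mem_primeFactors hpj.1.1))
      · intro h; exact absurd (Finset.mem_univ _) h
    rw [Finset.mem_sdiff, oddPrimes, Finset.mem_filter]
    refine ⟨⟨?_, ?_⟩, hpj.2⟩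
    · rw [Nat.mem_primeFactors]
      refine ⟨hp', ?_, Int.natAbs_ne_zero.mpr (mul_ne_zero ha
        (Finset.prod_ne_zero_iff.mpr fun j _ => hx j))⟩
      refine Int.natCast_dvd.mp ?_
      refine Dvd.dvd.mul_left ?_ _
      exact (Int.natCast_dvd.mpr (Nat.dvd_of_mem_primeFactors hpj.1.1)).trans
        (Finset.dvd_prod_of_mem _ (Finset.mem_univ j))
    · rw [hfac]; exact hpj.1.2
  · intro p hp _
    rw [Finset.mem_sdiff, oddPrimes, Finset.mem_filter] at hp
    exact (Nat.prime_of_mem_primeFactors hp.1.1).one_lt.le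

end Pool.Agent.H813R3.Voj
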