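import Pool.Agent.H813R3.Voj.DiscM2
import Pool.Agent.H813R3.Voj.Hyp

set_option autoImplicit false

namespace Pool.Agent.H813R3.Voj

open Finset

theorem prod_rhoM_le {q : ℕ} {m : ℕ} (hm : m.Prime) (P : Fin q → ℤ × ℤ) (a : ℤ) (ha : a ≠ 0)
    (hdet : ∀ i j, i ≠ j → (P i).1 * (P j).2 - (P j).1 * (P i).2 ≠ 0)
    (e : Fin q → ℕ) (he : ∀ j, ¬ m ∣ e j) (x : ℚ) (hx : ∀ j, lin (P j) x ≠ 0) :
    ∏ j, rhoM m (badPrimes P a) (lin (P j) x) ≤
      rhoM m (badPrimes P a) (a * ∏ j, lin (P j) x ^ e j) := by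
  classical
  set S := badPrimes P a with hS
  have hdisj : ((Finset.univ : Finset (Fin q)) : Set (Fin q)).PairwiseDisjoint
      fun j => primesM m (lin (P j) x) \ S := by
    intro i _ j _ hij
    rw [Function.onFun, Finset.disjoint_left]
    intro p hpi hpj
    rw [Finset.mem_sdiff, primesM, Finset.mem_filter] at hpi hpj
    have hp := Nat.prime_of_mem_primeFactors hpi.1.1
    exact not_dvd_two P a hdet x hp hpi.2 hij
      (Int.natCast_dvd.mpr (Nat.dvd_of_mem_primeFactors hpi.1.1))
      (Int.natCast_dvd.mpr (Nat.dvd_of_mem_primeFactors hpj.1.1))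
  have h1 : ∏ j, rhoM m S (lin (P j) x) =
      ∏ p ∈ Finset.univ.biUnion (fun j => primesM m (lin (P j) x) \ S), p := by
    rw [Finset.prod_biUnion hdisj]
    rfl
  rw [h1]
  unfold rhoM
  refine Finset.prod_le_prod_of_subset_of_one_le' ?_ ?_
  · intro p hp
    rw [Finset.mem_biUnion] at hp
    obtain ⟨j, _, hpj⟩ := hp
    rw [Finset.mem_sdiff, primesM, Finset.mem_filter] at hpj
    have hp' := Nat.prime_of_mem_primeFactors hpj.1.1
    have hpa : ¬ p ∣ a.natAbs := by
      intro h
      apply hpj.2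
      rw [hS, badPrimes, Finset.mem_union]
      left
      rw [Nat.mem_primeFactors]
      exact ⟨hp', h, Int.natAbs_ne_zero.mpr ha⟩
    have hfac : (a * ∏ j, lin (P j) x ^ e j).natAbs.factorization p =
        e j * (lin (P j) x).natAbs.factorization p := by
      have h2 : (a * ∏ j, lin (P j) x ^ e j).natAbs =
          a.natAbs * ∏ j, (lin (P j) x).natAbs ^ e j := by
        rw [Int.natAbs_mul, ← Int.natAbsHom_apply (∏ j, lin (P j) x ^ e j), map_prod]
        congr 1
        refine Finset.prod_congr rfl fun j _ => ?_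
        rw [map_pow]
        rfl
      rw [h2, Nat.factorization_mul (Int.natAbs_ne_zero.mpr ha)
        (Finset.prod_ne_zero_iff.mpr fun j _ => pow_ne_zero _ (Int.natAbs_ne_zero.mpr (hx j))),
        Nat.factorization_prod fun j _ => pow_ne_zero _ (Int.natAbs_ne_zero.mpr (hx j))]
      rw [Finsupp.add_apply, Nat.factorization_eq_zero_of_not_dvd hpa, zero_add,
        Finsupp.finsetSum_apply, Finset.sum_eq_single j]
      · rw [Nat.factorization_pow, Finsupp.smul_apply, smul_eq_mul]
      · intro i _ hij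
        rw [Nat.factorization_pow, Finsupp.smul_apply, smul_eq_mul]
        have h3 : (lin (P i) x).natAbs.factorization p = 0 :=
          Nat.factorization_eq_zero_of_not_dvd fun h =>
            not_dvd_two P a hdet x hp' hpj.2 hij (Int.natCast_dvd.mpr h)
              (Int.natCast_dvd.mpr (Nat.dvd_of_mem_primeFactors hpj.1.1))
        rw [h3, mul_zero]
      · intro h; exact absurd (Finset.mem_univ _) h
    have hej : e j ≠ 0 := fun h => he j (by rw [h]; exact dvd_zero _)
    rw [Finset.mem_sdiff, primesM, Finset.mem_filter]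
    refine ⟨⟨?_, ?_⟩, hpj.2⟩
    · rw [Nat.mem_primeFactors]
      refine ⟨hp', ?_, Int.natAbs_ne_zero.mpr (mul_ne_zero ha
        (Finset.prod_ne_zero_iff.mpr fun j _ => pow_ne_zero _ (hx j)))⟩
      refine Int.natCast_dvd.mp ?_
      refine Dvd.dvd.mul_left ?_ _
      exact ((Int.natCast_dvd.mpr (Nat.dvd_of_mem_primeFactors hpj.1.1)).trans
        (dvd_pow_self _ hej)).trans (Finset.dvd_prod_of_mem _ (Finset.mem_univ j))
    · rw [hfac]
      intro h
      rcases hm.dvd_mul.mp h with h | h
      · exact he j h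
      · exact hpj.1.2 h
  · intro p hp _
    rw [Finset.mem_sdiff, primesM, Finset.mem_filter] at hp
    exact (Nat.prime_of_mem_primeFactors hp.1.1).one_lt.le

end Pool.Agent.H813R3.Voj
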