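import Pool.Agent.H813R3.Voj.Main

set_option autoImplicit false

namespace Pool.Agent.H813R3.Voj

open Polynomial

/-- The value at `(u, v)` of the binary form of degree `natDegree f` attached to `f`. -/
def value (f : ℤ[X]) (P : ℤ × ℤ) : ℤ :=
  ∑ j ∈ Finset.range (f.natDegree + 1), f.coeff j * P.1 ^ j * P.2 ^ (f.natDegree - j)

/-- The Mahler measure of an integer polynomial. -/
noncomputable def mahler (f : ℤ[X]) : ℝ := (f.map (Int.castRingHom ℂ)).mahlerMeasure

lemma one_le_mahler {f : ℤ[X]} (hf : f ≠ 0) : 1 ≤ mahler f :=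
  one_le_mahlerMeasure_of_ne_zero hf

lemma coeff_le (f : ℤ[X]) (j : ℕ) : (|f.coeff j| : ℝ) ≤ 2 ^ f.natDegree * mahler f := by
  have h1 := norm_coeff_le_choose_mul_mahlerMeasure j (f.map (Int.castRingHom ℂ))
  rw [coeff_map, natDegree_map_eq_of_injective (RingHom.injective_int _)] at h1
  have h2 : ‖(Int.castRingHom ℂ) (f.coeff j)‖ = (|f.coeff j| : ℝ) := by
    simp
  rw [h2] at h1
  refine h1.trans ?_
  refine mul_le_mul_of_nonneg_right ?_ (mahlerMeasure_nonneg _)
  exact_mod_cast Nat.choose_le_two_pow _ _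

/-- the coefficient vector -/
def vec (r : ℕ) (f : ℤ[X]) : Fin (r + 1) → ℤ := fun j => f.coeff j

lemma ev_vec {r : ℕ} {f : ℤ[X]} (hf : f.natDegree = r) (P : ℤ × ℤ) :
    ev (vec r f) P = value f P := by
  unfold ev value vec
  rw [hf, Finset.sum_range]
  refine Finset.sum_congr rfl fun j _ => ?_
  rw [Fin.val_rev]
  rw [show r + 1 - ((j : ℕ) + 1) = r - j by omega]
  ring

lemma vec_inj {r : ℕ} {f g : ℤ[X]} (hf : f.natDegree = r) (hg : g.natDegree = r)
    (h : vec r f = vec r g) : f = g := by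
  ext j
  by_cases hj : j ≤ r
  · exact congrFun h ⟨j, by omega⟩
  · rw [coeff_eq_zero_of_natDegree_lt (by omega), coeff_eq_zero_of_natDegree_lt (by omega)]

lemma ncard_le_of_finset {α : Type*} (V : Set α) (b : ℝ)
    (h : ∀ E : Finset α, (E : Set α) ⊆ V → (E.card : ℝ) ≤ b) :
    V.Finite ∧ (V.ncard : ℝ) ≤ b := by
  have hfin : V.Finite := by
    by_contra hinf
    obtain ⟨E, hEV, hEc⟩ := Set.Infinite.exists_subset_card_eq hinf (⌊b⌋₊ + 1)
    have h1 := h E hEV
    have h2 := Nat.lt_floor_add_one b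
    rw [hEc] at h1
    push_cast at h1
    linarith
  refine ⟨hfin, ?_⟩
  rw [Set.ncard_eq_toFinset_card V hfin]
  exact h hfin.toFinset (by rw [Set.Finite.coe_toFinset])

/-- the points of degree `r` and height at most `log B` attached to a class of polynomials -/
theorem count_points (r q : ℕ) (hr : 1 ≤ r) (hq : 1 ≤ q) (P : Fin q → ℤ × ℤ)
    (hP0 : ∀ j, P j ≠ 0)
    (hP : ∀ i j, i ≠ j → (P i).1 * (P j).2 - (P j).1 * (P i).2 ≠ 0) (S : Finset ℕ)
    (k : ℕ) (hkq : k ≤ q) (hkr : k ≤ r + 1) (θ c δ : ℝ) (hθ : 0 ≤ θ) (hδ : 0 < δ) :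
    ∃ C : ℝ, 0 < C ∧ ∀ B : ℝ, 1 ≤ B → ∀ E : Finset ℂ,
      (∀ x ∈ E, ∃ f : ℤ[X], f ≠ 0 ∧ f.natDegree = r ∧ aeval x f = 0 ∧ mahler f ≤ B ^ r ∧
        (∀ j, value f (P j) ≠ 0) ∧
        Real.log (∏ j, (rho S (value f (P j)) : ℝ)) ≤ θ * Real.log (mahler f) + c) →
      (E.card : ℝ) ≤ C * B ^ ((r : ℝ) * (r + 1 - k + k * θ / q) + δ) := by
  classical
  have hr0 : (0 : ℝ) < r := by exact_mod_cast hr
  have hδ' : 0 < δ / r := by positivity
  obtain ⟨C, hC, hCN⟩ := count_forms r q hq P hP0 hP S k hkq hkr hδ'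
  set e : ℝ := ((r + 1 - k : ℕ) : ℝ) + δ / r with he
  have he' : ((r + 1 - k : ℕ) : ℝ) = (r : ℝ) + 1 - k := by
    rw [Nat.cast_sub hkr]; push_cast; ring
  refine ⟨r * (C * (Real.exp |c|) ^ ((k : ℝ) / q) * (2 ^ r : ℝ) ^ e), by positivity,
    fun B hB E hE => ?_⟩
  choose! f hf0 hfdeg hfx hfM hfv hfrho using hE
  have hB0 : 0 < B := by linarith
  set H : ℕ := ⌊(2 : ℝ) ^ r * B ^ r⌋₊ with hH
  have h2B : (1 : ℝ) ≤ (2 : ℝ) ^ r * B ^ r :=
    one_le_mul_of_one_le_of_one_le (one_le_pow₀ (by norm_num)) (one_le_pow₀ hB)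
  have hH1 : 1 ≤ H := Nat.le_floor (by exact_mod_cast h2B)
  have hHle : (H : ℝ) ≤ 2 ^ r * B ^ r := Nat.floor_le (by positivity)
  set Z : ℝ := Real.exp |c| * B ^ ((r : ℝ) * θ) with hZ
  have hBθ : (1 : ℝ) ≤ B ^ ((r : ℝ) * θ) := Real.one_le_rpow hB (by positivity)
  have hZ1 : 1 ≤ Z := one_le_mul_of_one_le_of_one_le (Real.one_le_exp (abs_nonneg c)) hBθ
  have h1 := hCN H hH1 Z hZ1 (E.image fun x => vec r (f x)) ?_
  · have h2 : E.card ≤ r * (E.image fun x => vec r (f x)).card := by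
      refine Finset.card_le_mul_card_image E r fun a ha => ?_
      obtain ⟨x₀, hx₀, rfl⟩ := Finset.mem_image.mp ha
      have h3 : (E.filter fun x => vec r (f x) = vec r (f x₀)) ⊆
          ((f x₀).map (Int.castRingHom ℂ)).roots.toFinset := by
        intro x hx
        rw [Finset.mem_filter] at hx
        have h4 := vec_inj (hfdeg x hx.1) (hfdeg x₀ hx₀) hx.2
        rw [Multiset.mem_toFinset, mem_roots']
        refine ⟨?_, ?_⟩
        · rw [Polynomial.map_ne_zero_iff (RingHom.injective_int _)]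
          exact hf0 x₀ hx₀
        · have h5 := hfx x hx.1
          rw [h4] at h5
          rw [IsRoot.def, eval_map]
          rw [aeval_def] at h5
          exact h5
      refine (Finset.card_le_card h3).trans ((Multiset.toFinset_card_le _).trans ?_)
      refine (card_roots' _).trans ?_
      rw [natDegree_map_eq_of_injective (RingHom.injective_int _)]
      exact (hfdeg x₀ hx₀).le
    have h3 : (E.card : ℝ) ≤ r * (E.image fun x => vec r (f x)).card := by exact_mod_cast h2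
    refine h3.trans ?_
    have h4 : (r : ℝ) * (E.image fun x => vec r (f x)).card ≤
        r * (C * Z ^ ((k : ℝ) / q) * (H : ℝ) ^ e) := mul_le_mul_of_nonneg_left h1 hr0.le
    refine h4.trans ?_
    have h5 : Z ^ ((k : ℝ) / q) =
        (Real.exp |c|) ^ ((k : ℝ) / q) * B ^ ((r : ℝ) * θ * (k / q)) := by
      rw [hZ, Real.mul_rpow (Real.exp_pos _).le (by positivity), ← Real.rpow_mul hB0.le]
    have he0 : 0 ≤ e := by positivity
    have h6 : (H : ℝ) ^ e ≤ (2 ^ r : ℝ) ^ e * B ^ ((r : ℝ) * e) := by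
      refine (Real.rpow_le_rpow (by positivity) hHle he0).trans (le_of_eq ?_)
      rw [Real.mul_rpow (by positivity) (by positivity)]
      congr 1
      rw [Real.rpow_mul hB0.le, Real.rpow_natCast]
    have h7 : B ^ ((r : ℝ) * (r + 1 - k + k * θ / q) + δ) =
        B ^ ((r : ℝ) * θ * (k / q)) * B ^ ((r : ℝ) * e) := by
      rw [← Real.rpow_add hB0]
      congr 1
      rw [he, he']
      field_simp
      ring
    rw [h5, h7]
    calc (r : ℝ) * (C * ((Real.exp |c|) ^ ((k : ℝ) / q) * B ^ ((r : ℝ) * θ * (k / q))) *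
          (H : ℝ) ^ e)
        ≤ (r : ℝ) * (C * ((Real.exp |c|) ^ ((k : ℝ) / q) * B ^ ((r : ℝ) * θ * (k / q))) *
          ((2 ^ r : ℝ) ^ e * B ^ ((r : ℝ) * e))) := by
          refine mul_le_mul_of_nonneg_left (mul_le_mul_of_nonneg_left h6 (by positivity)) hr0.le
      _ = _ := by ring
  · intro a ha
    obtain ⟨x, hx, rfl⟩ := Finset.mem_image.mp ha
    refine ⟨fun i => ?_, fun j => ?_, ?_⟩
    · have h2 := coeff_le (f x) i
      rw [hfdeg x hx] at h2
      have h3 : (|(f x).coeff i| : ℝ) ≤ 2 ^ r * B ^ r :=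
        h2.trans (mul_le_mul_of_nonneg_left (hfM x hx) (by positivity))
      have h4 : ((f x).coeff i).natAbs ≤ H := by
        refine Nat.le_floor ?_
        rw [Nat.cast_natAbs]
        push_cast
        exact h3
      show |(f x).coeff i| ≤ H
      rw [Int.abs_eq_natAbs]
      exact_mod_cast h4
    · rw [ev_vec (hfdeg x hx)]; exact hfv x hx j
    · simp only [ev_vec (hfdeg x hx)]
      have h2 : (0 : ℝ) < ∏ j, (rho S (value (f x) (P j)) : ℝ) :=
        Finset.prod_pos fun j _ => by exact_mod_cast rho_pos S _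
      rw [← Real.log_le_log_iff h2 (by positivity)]
      refine (hfrho x hx).trans ?_
      have h3 : Real.log (mahler (f x)) ≤ r * Real.log B := by
        rw [← Real.log_pow]
        exact Real.log_le_log (by linarith [one_le_mahler (hf0 x hx)]) (hfM x hx)
      rw [hZ, Real.log_mul (Real.exp_pos _).ne' (by positivity), Real.log_exp,
        Real.log_rpow hB0]
      have h4 : θ * Real.log (mahler (f x)) ≤ θ * (r * Real.log B) :=
        mul_le_mul_of_nonneg_left h3 hθ
      have h5 := le_abs_self c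
      linarith

end Pool.Agent.H813R3.Voj
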