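import Mathlib

set_option autoImplicit false

/-!
The sum of `1 / rho n` over `n ≤ N`, where `rho n` is the product of the primes dividing `n`
outside a finite set `S`, is `O(N ^ δ)`.
-/

namespace Pool.Agent.H813R3.Voj

open Finset

/-- the product of the primes outside `S` dividing `n` -/
def rho (S : Finset ℕ) (n : ℤ) : ℕ := ∏ p ∈ n.natAbs.primeFactors \ S, p

lemma rho_pos (S : Finset ℕ) (n : ℤ) : 0 < rho S n := by
  unfold rho
  refine Finset.prod_pos fun p hp => ?_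
  rw [Finset.mem_sdiff] at hp
  exact (Nat.prime_of_mem_primeFactors hp.1).pos

/-- the radical -/
def rd (n : ℕ) : ℕ := ∏ p ∈ n.primeFactors, p

lemma rd_pos (n : ℕ) : 0 < rd n :=
  Finset.prod_pos fun _ hp => (Nat.prime_of_mem_primeFactors hp).pos

lemma rd_le (S : Finset ℕ) (n : ℤ) :
    rd n.natAbs ≤ (∏ p ∈ S, (p + 1)) * rho S n := by
  unfold rd rho
  rw [← Finset.prod_inter_mul_prod_sdiff n.natAbs.primeFactors S (fun p => p)]
  refine Nat.mul_le_mul_right _ ?_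
  calc ∏ p ∈ n.natAbs.primeFactors ∩ S, p ≤ ∏ p ∈ n.natAbs.primeFactors ∩ S, (p + 1) :=
        Finset.prod_le_prod' fun p _ => by omega
    _ ≤ ∏ p ∈ S, (p + 1) :=
        Finset.prod_le_prod_of_subset_of_one_le' Finset.inter_subset_right fun p _ _ => by omega

/-- the function in Rankin's trick -/
noncomputable def g (δ : ℝ) (n : ℕ) : ℝ := (n : ℝ) ^ (-δ) / rd n

lemma g_nonneg (δ : ℝ) (n : ℕ) : 0 ≤ g δ n := by unfold g; positivity

lemma g_one (δ : ℝ) : g δ 1 = 1 := by simp [g, rd]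

lemma g_mul (δ : ℝ) {m n : ℕ} (h : Nat.Coprime m n) : g δ (m * n) = g δ m * g δ n := by
  unfold g rd
  rw [h.primeFactors_mul, Finset.prod_union h.disjoint_primeFactors]
  push_cast
  rw [Real.mul_rpow (Nat.cast_nonneg _) (Nat.cast_nonneg _)]
  ring

lemma g_pow (δ : ℝ) {p : ℕ} (hp : p.Prime) (k : ℕ) :
    g δ (p ^ (k + 1)) = (1 / p) * (p : ℝ) ^ (-δ) * ((p : ℝ) ^ (-δ)) ^ k := by
  unfold g rd
  rw [Nat.primeFactors_prime_pow (by omega) hp, Finset.prod_singleton]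
  push_cast
  rw [← Real.rpow_natCast, ← Real.rpow_natCast, ← Real.rpow_mul (Nat.cast_nonneg _),
    ← Real.rpow_mul (Nat.cast_nonneg _), mul_assoc, ← Real.rpow_add (by exact_mod_cast hp.pos)]
  push_cast
  rw [show ((k : ℝ) + 1) * -δ = -δ + -δ * k by ring]
  ring

lemma prime_rpow_le {δ : ℝ} (hδ : 0 < δ) {p : ℕ} (hp : p.Prime) :
    (p : ℝ) ^ (-δ) ≤ (2 : ℝ) ^ (-δ) := by
  refine Real.rpow_le_rpow_of_nonpos (by norm_num) (by exact_mod_cast hp.two_le) (by linarith)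

lemma two_rpow_lt {δ : ℝ} (hδ : 0 < δ) : (2 : ℝ) ^ (-δ) < 1 :=
  Real.rpow_lt_one_of_one_lt_of_neg (by norm_num) (by linarith)

lemma g_hasSum {δ : ℝ} (hδ : 0 < δ) {p : ℕ} (hp : p.Prime) :
    HasSum (fun n : ℕ => g δ (p ^ n))
      (1 + (1 / p) * (p : ℝ) ^ (-δ) * (1 - (p : ℝ) ^ (-δ))⁻¹) := by
  have h0 : (0 : ℝ) ≤ (p : ℝ) ^ (-δ) := by positivity
  have h1 : (p : ℝ) ^ (-δ) < 1 := (prime_rpow_le hδ hp).trans_lt (two_rpow_lt hδ)
  have h2 := (hasSum_geometric_of_lt_one h0 h1).mul_left ((1 / (p : ℝ)) * (p : ℝ) ^ (-δ))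
  have h3 : HasSum (fun n : ℕ => g δ (p ^ (n + 1)))
      ((1 / p) * (p : ℝ) ^ (-δ) * (1 - (p : ℝ) ^ (-δ))⁻¹) := by
    simpa only [g_pow δ hp] using h2
  have h4 := (hasSum_nat_add_iff (f := fun n => g δ (p ^ n)) 1).mp h3
  simp only [Finset.range_one, Finset.sum_singleton, pow_zero, g_one] at h4
  rw [add_comm]
  exact h4

theorem sum_g_le {δ : ℝ} (hδ : 0 < δ) :
    ∃ C : ℝ, 0 < C ∧ ∀ N : ℕ, ∑ n ∈ Finset.Icc 1 N, g δ n ≤ C := by
  set K : ℝ := (1 - (2 : ℝ) ^ (-δ))⁻¹ with hK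
  have hK0 : 0 < K := inv_pos.mpr (by linarith [two_rpow_lt hδ])
  have hs : Summable (fun n : ℕ => (n : ℝ) ^ (-(1 + δ))) := by
    refine Real.summable_nat_rpow.mpr (by linarith)
  refine ⟨Real.exp (K * ∑' n : ℕ, (n : ℝ) ^ (-(1 + δ))), Real.exp_pos _, fun N => ?_⟩
  obtain ⟨hS1, hS2⟩ := EulerProduct.summable_and_hasSum_smoothNumbers_prod_primesBelow_tsum
    (f := g δ) (g_one δ) (fun {m n} h => g_mul δ h)
    (fun {p} hp => (g_hasSum hδ hp).summable.norm) (N + 1)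
  have h1 : ∑ n ∈ Finset.Icc 1 N, g δ n ≤ ∑' m : (N + 1).smoothNumbers, g δ m := by
    have hmem : ∀ n ∈ Finset.Icc 1 N, n ∈ (N + 1).smoothNumbers := by
      intro n hn
      rw [Finset.mem_Icc] at hn
      rw [Nat.mem_smoothNumbers']
      intro p hp hpn
      have := Nat.le_of_dvd (by omega) hpn
      omega
    have h2 : ∑ n ∈ Finset.Icc 1 N, g δ n =
        ∑ m ∈ (Finset.Icc 1 N).subtype (· ∈ (N + 1).smoothNumbers), g δ (m : ℕ) := by
      rw [Finset.sum_subtype_of_mem]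
      exact hmem
    rw [h2]
    exact hS1.of_norm.sum_le_tsum _ (fun m _ => g_nonneg δ m)
  refine h1.trans ?_
  rw [hS2.tsum_eq]
  have h3 : ∀ p ∈ (N + 1).primesBelow, ∑' n : ℕ, g δ (p ^ n) ≤
      Real.exp (K * (p : ℝ) ^ (-(1 + δ))) := by
    intro p hp
    have hp' := Nat.prime_of_mem_primesBelow hp
    rw [(g_hasSum hδ hp').tsum_eq]
    refine le_trans ?_ (Real.add_one_le_exp _)
    have h4 : (1 / (p : ℝ)) * (p : ℝ) ^ (-δ) = (p : ℝ) ^ (-(1 + δ)) := by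
      rw [neg_add, Real.rpow_add (by exact_mod_cast hp'.pos), Real.rpow_neg_one, one_div]
    rw [h4]
    have h5 : (1 - (p : ℝ) ^ (-δ))⁻¹ ≤ K := by
      refine inv_anti₀ (by linarith [two_rpow_lt hδ]) ?_
      linarith [prime_rpow_le hδ hp']
    have h6 : (0 : ℝ) ≤ (p : ℝ) ^ (-(1 + δ)) := by positivity
    nlinarith
  have h7 : ∏ p ∈ (N + 1).primesBelow, ∑' n : ℕ, g δ (p ^ n) ≤
      ∏ p ∈ (N + 1).primesBelow, Real.exp (K * (p : ℝ) ^ (-(1 + δ))) := by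
    refine Finset.prod_le_prod (fun p _ => tsum_nonneg fun n => g_nonneg δ _) h3
  refine h7.trans ?_
  rw [← Real.exp_sum, ← Finset.mul_sum]
  refine Real.exp_le_exp.mpr (mul_le_mul_of_nonneg_left ?_ hK0.le)
  exact hs.sum_le_tsum _ (fun n _ => by positivity)

/-- `∑_{n ≤ N} 1 / rho n = O(N ^ δ)` -/
theorem sum_inv_rho (S : Finset ℕ) {δ : ℝ} (hδ : 0 < δ) :
    ∃ C : ℝ, 0 < C ∧ ∀ N : ℕ, 1 ≤ N → ∑ n ∈ Finset.Icc 1 N, (1 : ℝ) / rho S (n : ℤ) ≤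
      C * (N : ℝ) ^ δ := by
  obtain ⟨C, hC, hCN⟩ := sum_g_le hδ
  set A : ℕ := ∏ p ∈ S, (p + 1) with hA
  have hA0 : 0 < A := Finset.prod_pos fun p _ => by omega
  refine ⟨A * C, by positivity, fun N hN => ?_⟩
  have h1 : ∀ n ∈ Finset.Icc 1 N, (1 : ℝ) / rho S (n : ℤ) ≤ A * (N : ℝ) ^ δ * g δ n := by
    intro n hn
    rw [Finset.mem_Icc] at hn
    have h2 := rd_le S (n : ℤ)
    rw [Int.natAbs_natCast] at h2
    have h3 : (rd n : ℝ) ≤ A * rho S (n : ℤ) := by exact_mod_cast h2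
    have h4 : (0 : ℝ) < rd n := by exact_mod_cast rd_pos n
    have h5 : (0 : ℝ) < rho S (n : ℤ) := by exact_mod_cast rho_pos S _
    have h6 : (1 : ℝ) / rho S (n : ℤ) ≤ A / rd n := by
      rw [div_le_div_iff₀ h5 h4]; linarith
    refine h6.trans ?_
    unfold g
    have hn0 : (0 : ℝ) < n := by exact_mod_cast (show 0 < n by omega)
    have h7 : (1 : ℝ) ≤ (N : ℝ) ^ δ * (n : ℝ) ^ (-δ) := by
      have h8 : (n : ℝ) ^ δ ≤ (N : ℝ) ^ δ :=
        Real.rpow_le_rpow hn0.le (by exact_mod_cast hn.2) hδ.le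
      calc (1 : ℝ) = (n : ℝ) ^ δ * (n : ℝ) ^ (-δ) := by
            rw [← Real.rpow_add hn0]; simp
        _ ≤ _ := mul_le_mul_of_nonneg_right h8 (by positivity)
    calc (A : ℝ) / rd n = A / rd n * 1 := by ring
      _ ≤ A / rd n * ((N : ℝ) ^ δ * (n : ℝ) ^ (-δ)) :=
          mul_le_mul_of_nonneg_left h7 (by positivity)
      _ = _ := by ring
  calc ∑ n ∈ Finset.Icc 1 N, (1 : ℝ) / rho S (n : ℤ)
      ≤ ∑ n ∈ Finset.Icc 1 N, A * (N : ℝ) ^ δ * g δ n := Finset.sum_le_sum h1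
    _ = A * (N : ℝ) ^ δ * ∑ n ∈ Finset.Icc 1 N, g δ n := by rw [Finset.mul_sum]
    _ ≤ A * (N : ℝ) ^ δ * C := mul_le_mul_of_nonneg_left (hCN N) (by positivity)
    _ = _ := by ring

end Pool.Agent.H813R3.Voj
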